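import Mathlib
import Pool.Agent.W842.KF.Stm
import Pool.Agent.W378.KF.Ball
import Pool.Agent.W215.KF.Paths
import Pool.Agent.W305.KF.Mark
import Pool.Agent.W723.KF.Cut

set_option autoImplicit false

/-!
# An independent set that meets all long paths

`H` is a graph of maximum degree two and `I` a graph of maximum degree `d` on the same finite set.
There is a set `S` which is independent in `I` and meets all paths of `H` with `128 (d+1)^4`
vertices.  The random set `S` consists of the marked elements without marked neighbours in `I`.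
-/

namespace Pool.Agent.K1H87.KF

open Finset Pool.Agent.Helper635.LLL Pool.Agent.W842.KF Pool.Agent.W723.KF

section

variable {T : Type} [Fintype T]

/-- closed neighbourhood -/
noncomputable def cn (I : SimpleGraph T) (e : T) : Finset T := by
  classical exact insert e (nb I e)

theorem mem_cn {I : SimpleGraph T} {e f : T} : f ∈ cn I e ↔ f = e ∨ I.Adj e f := by
  classical
  unfold cn
  rw [Finset.mem_insert, mem_nb]

theorem cn_symm {I : SimpleGraph T} {e f : T} : f ∈ cn I e ↔ e ∈ cn I f := by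
  rw [mem_cn, mem_cn, I.adj_comm, eq_comm]

theorem card_cn {I : SimpleGraph T} {d : ℕ} (h : ∀ e, (nb I e).card ≤ d) (e : T) :
    (cn I e).card ≤ d + 1 := by
  classical
  unfold cn
  exact (Finset.card_insert_le _ _).trans (Nat.add_le_add_right (h e) 1)

/-- the elements whose closed neighbourhoods meet the closed neighbourhood of `e` -/
noncomputable def cn2 (I : SimpleGraph T) (e : T) : Finset T := by
  classical exact (cn I e).biUnion (cn I)

theorem mem_cn2 {I : SimpleGraph T} {e f : T} : f ∈ cn2 I e ↔ ¬ Disjoint (cn I e) (cn I f) := by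
  classical
  unfold cn2
  rw [Finset.mem_biUnion, Finset.not_disjoint_iff]
  constructor
  · rintro ⟨a, h1, h2⟩
    exact ⟨a, h1, cn_symm.1 h2⟩
  · rintro ⟨a, h1, h2⟩
    exact ⟨a, h1, cn_symm.1 h2⟩

theorem card_cn2 {I : SimpleGraph T} {d : ℕ} (h : ∀ e, (nb I e).card ≤ d) (e : T) :
    (cn2 I e).card ≤ (d + 1) * (d + 1) := by
  classical
  unfold cn2
  refine (Finset.card_biUnion_le_card_mul _ _ (d + 1) fun a _ => card_cn h a).trans ?_
  exact Nat.mul_le_mul_right _ (card_cn h e)

/-- many elements with pairwise disjoint closed neighbourhoods -/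
theorem spread {I : SimpleGraph T} {d : ℕ} (h : ∀ e, (nb I e).card ≤ d) (X : Finset T) :
    ∃ Z, Z ⊆ X ∧ (∀ z ∈ Z, ∀ z' ∈ Z, z ≠ z' → Disjoint (cn I z) (cn I z')) ∧
      X.card ≤ (d + 1) * (d + 1) * Z.card := by
  classical
  induction X using Finset.strongInduction with
  | H X ih =>
    rcases X.eq_empty_or_nonempty with rfl | ⟨x, hx⟩
    · exact ⟨∅, Finset.Subset.refl _, fun z hz => absurd hz (Finset.notMem_empty _), by simp⟩
    · have hxx : x ∈ cn2 I x := by
        rw [mem_cn2, Finset.not_disjoint_iff]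
        exact ⟨x, mem_cn.2 (Or.inl rfl), mem_cn.2 (Or.inl rfl)⟩
      have hss : X \ cn2 I x ⊂ X := by
        refine ⟨Finset.sdiff_subset, fun hsub => ?_⟩
        exact (Finset.mem_sdiff.1 (hsub hx)).2 hxx
      obtain ⟨Z, hZ1, hZ2, hZ3⟩ := ih _ hss
      have hxZ : x ∉ Z := fun h1 => (Finset.mem_sdiff.1 (hZ1 h1)).2 hxx
      have hdis : ∀ z ∈ Z, Disjoint (cn I x) (cn I z) := by
        intro z hz
        have h1 := (Finset.mem_sdiff.1 (hZ1 hz)).2
        rw [mem_cn2, not_not] at h1
        exact h1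
      refine ⟨insert x Z, ?_, ?_, ?_⟩
      · intro z hz
        rcases Finset.mem_insert.1 hz with rfl | hz
        · exact hx
        · exact (Finset.mem_sdiff.1 (hZ1 hz)).1
      · intro z hz z' hz' hne
        rcases Finset.mem_insert.1 hz with e1 | hz1
        · rcases Finset.mem_insert.1 hz' with e2 | hz2
          · exact absurd (e1.trans e2.symm) hne
          · rw [e1]
            exact hdis z' hz2
        · rcases Finset.mem_insert.1 hz' with e2 | hz2
          · rw [e2]
            exact (hdis z hz1).symm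
          · exact hZ2 z hz1 z' hz2 hne
      · rw [Finset.card_insert_of_notMem hxZ]
        have h1 : X.card ≤ (X \ cn2 I x).card + (cn2 I x).card := by
          rw [← Finset.card_sdiff_add_card_inter X (cn2 I x)]
          exact Nat.add_le_add_left (Finset.card_le_card Finset.inter_subset_right) _
        have h2 := card_cn2 h x
        rw [Nat.mul_add, Nat.mul_one]
        omega

/-- the marked elements without marked neighbours -/
def eff (I : SimpleGraph T) {N : ℕ} (m : T → Fin N) (e : T) : Prop :=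
  (m e : ℕ) = 0 ∧ ∀ f, I.Adj e f → (m f : ℕ) ≠ 0

theorem eff_congr {I : SimpleGraph T} {N : ℕ} {m m' : T → Fin N} {e : T}
    (h : ∀ f ∈ cn I e, m f = m' f) : eff I m e ↔ eff I m' e := by
  unfold eff
  rw [h e (mem_cn.2 (Or.inl rfl))]
  refine and_congr_right fun _ => forall_congr' fun f => ?_
  refine imp_congr_right fun hf => ?_
  rw [h f (mem_cn.2 (Or.inr hf))]

end

section

variable {T C : Type} [Fintype T] [Fintype C]

open Classical in
theorem cnt_compl (P : (T → C) → Prop) :
    cnt P + cnt (fun ω => ¬ P ω) = Fintype.card (T → C) := by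
  unfold cnt ev
  rw [Finset.card_filter_add_card_filter_not, Finset.card_univ]

end

section

variable {T : Type} [Fintype T]

open Classical in
theorem cnt_not_eff {I : SimpleGraph T} {d N : ℕ} (h : ∀ e, (nb I e).card ≤ d)
    (hN : N = 2 * (d + 1)) (e : T) :
    (cnt (fun m : T → Fin N => ¬ eff I m e) : ℝ) ≤
      (1 - 1 / (2 * (N : ℝ))) * Fintype.card (T → Fin N) := by
  have hN1 : 1 ≤ N := by omega
  have hN0 : (0 : ℝ) < N := by exact_mod_cast hN1
  have hNd : (N : ℝ) = 2 * ((d : ℝ) + 1) := by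
    rw [hN]
    push_cast
    ring
  set Q : ℝ := (Fintype.card (T → Fin N) : ℝ) with hQ
  have hcard : 0 < Fintype.card (T → Fin N) := by
    rw [Fintype.card_pos_iff]
    exact ⟨fun _ => ⟨0, hN1⟩⟩
  have hQ0 : 0 < Q := by
    rw [hQ]
    exact_mod_cast hcard
  have h1 := cnt_compl (fun m : T → Fin N => eff I m e)
  have h2 := indep (fun m : T → Fin N => (m e : ℕ) = 0) (fun m => ∀ f ∈ nb I e, (m f : ℕ) ≠ 0) {e}
    (by
      intro ω ω' hω h3
      rw [← hω e (Finset.mem_singleton_self e)]
      exact h3)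
    (by
      intro ω ω' hω h3 f hf
      rw [← hω f ?_]
      · exact h3 f hf
      · rw [Finset.mem_singleton]
        rintro rfl
        exact I.loopless.irrefl f (mem_nb.1 hf))
  have h3 : cnt (fun ω : T → Fin N => (ω e : ℕ) = 0 ∧ ∀ f ∈ nb I e, (ω f : ℕ) ≠ 0) =
      cnt (fun m : T → Fin N => eff I m e) := by
    congr 1
    funext m
    unfold eff
    simp only [mem_nb]
  rw [h3] at h2
  -- the element is marked
  have h4 : Q / N ≤ (cnt (fun m : T → Fin N => (m e : ℕ) = 0) : ℝ) := by
    have h5 := Pool.Agent.W305.KF.t_mark1 T N hN1 {e}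
    have h6 := cnt_compl (fun m : T → Fin N => (m e : ℕ) = 0)
    have h7 : cnt (fun m : T → Fin N => ∀ z ∈ ({e} : Finset T), (m z : ℕ) ≠ 0) =
        cnt (fun m : T → Fin N => ¬ (m e : ℕ) = 0) := by
      congr 1
      funext m
      simp only [Finset.mem_singleton, forall_eq, ne_eq]
    rw [h7, Finset.card_singleton, pow_one] at h5
    have h8 : ((cnt (fun m : T → Fin N => (m e : ℕ) = 0) : ℕ) : ℝ) +
        (cnt (fun m : T → Fin N => ¬ (m e : ℕ) = 0) : ℝ) = Q := by
      rw [hQ]
      exact_mod_cast h6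
    have h9 : (1 - 1 / (N : ℝ)) * Q = Q - Q / N := by
      field_simp
    rw [← hQ, h9] at h5
    linarith
  -- the neighbours are not marked
  have h5 : Q / 2 ≤ (cnt (fun m : T → Fin N => ∀ f ∈ nb I e, (m f : ℕ) ≠ 0) : ℝ) := by
    have h6 := cnt_compl (fun m : T → Fin N => ∀ f ∈ nb I e, (m f : ℕ) ≠ 0)
    have h7 := Pool.Agent.W305.KF.t_mark2 T N hN1 (nb I e) 1
    have h8 : cnt (fun m : T → Fin N =>
        1 ≤ ((nb I e).filter fun z => (m z : ℕ) = 0).card) =
        cnt (fun m : T → Fin N => ¬ ∀ f ∈ nb I e, (m f : ℕ) ≠ 0) := by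
      congr 1
      funext m
      rw [eq_iff_iff, Nat.one_le_iff_ne_zero, Ne, Finset.card_eq_zero,
        Finset.filter_eq_empty_iff]
    rw [h8, pow_one, ← hQ] at h7
    have h9 : ((cnt (fun m : T → Fin N => ∀ f ∈ nb I e, (m f : ℕ) ≠ 0) : ℕ) : ℝ) +
        (cnt (fun m : T → Fin N => ¬ ∀ f ∈ nb I e, (m f : ℕ) ≠ 0) : ℝ) = Q := by
      rw [hQ]
      exact_mod_cast h6
    have h10 : ((nb I e).card : ℝ) / N * Q ≤ Q / 2 := by
      have h11 : ((nb I e).card : ℝ) ≤ d := by exact_mod_cast h e
      rw [div_mul_eq_mul_div, div_le_div_iff₀ hN0 (by norm_num), hNd]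
      nlinarith
    linarith
  have h6 : (cnt (fun m : T → Fin N => eff I m e) : ℝ) * Q =
      (cnt (fun m : T → Fin N => (m e : ℕ) = 0) : ℝ) *
        (cnt (fun m : T → Fin N => ∀ f ∈ nb I e, (m f : ℕ) ≠ 0) : ℝ) := by
    rw [hQ]
    exact_mod_cast h2
  have h7 : Q / N * (Q / 2) ≤ (cnt (fun m : T → Fin N => eff I m e) : ℝ) * Q := by
    rw [h6]
    exact mul_le_mul h4 h5 (by positivity) (Nat.cast_nonneg _)
  have h8 : Q / (2 * N) ≤ (cnt (fun m : T → Fin N => eff I m e) : ℝ) := by
    refine le_of_mul_le_mul_right ?_ hQ0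
    refine le_trans (le_of_eq ?_) h7
    field_simp
  have h9 : ((cnt (fun m : T → Fin N => eff I m e) : ℕ) : ℝ) +
      (cnt (fun m : T → Fin N => ¬ eff I m e) : ℝ) = Q := by
    rw [hQ]
    exact_mod_cast h1
  have h10 : (1 - 1 / (2 * (N : ℝ))) * Q = Q - Q / (2 * N) := by
    field_simp
  rw [h10]
  linarith

open Classical in
theorem cnt_no_eff {I : SimpleGraph T} {d N : ℕ} (h : ∀ e, (nb I e).card ≤ d)
    (hN : N = 2 * (d + 1)) (Z : Finset T)
    (hZ : ∀ z ∈ Z, ∀ z' ∈ Z, z ≠ z' → Disjoint (cn I z) (cn I z')) :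
    (cnt (fun m : T → Fin N => ∀ z ∈ Z, ¬ eff I m z) : ℝ) ≤
      (1 - 1 / (2 * (N : ℝ))) ^ Z.card * Fintype.card (T → Fin N) := by
  have hN1 : 1 ≤ N := by omega
  have hN0 : (1 : ℝ) ≤ N := by exact_mod_cast hN1
  have hq0 : 0 ≤ 1 - 1 / (2 * (N : ℝ)) := by
    have : 1 / (2 * (N : ℝ)) ≤ 1 := by
      rw [div_le_one (by positivity)]
      linarith
    linarith
  have hcard : 0 < Fintype.card (T → Fin N) := by
    rw [Fintype.card_pos_iff]
    exact ⟨fun _ => ⟨0, hN1⟩⟩
  set Q : ℝ := (Fintype.card (T → Fin N) : ℝ) with hQ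
  have hQ0 : 0 < Q := by
    rw [hQ]
    exact_mod_cast hcard
  induction Z using Finset.induction_on with
  | empty =>
    rw [Finset.card_empty, pow_zero, one_mul, hQ]
    have h1 := cnt_compl (fun m : T → Fin N => ∀ z ∈ (∅ : Finset T), ¬ eff I m z)
    exact_mod_cast (by omega : cnt (fun m : T → Fin N => ∀ z ∈ (∅ : Finset T), ¬ eff I m z) ≤
      Fintype.card (T → Fin N))
  | insert z Z hz ih =>
    have ih' := ih fun a ha b hb hab =>
      hZ a (Finset.mem_insert_of_mem ha) b (Finset.mem_insert_of_mem hb) hab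
    have h1 := indep (fun m : T → Fin N => ¬ eff I m z) (fun m => ∀ z' ∈ Z, ¬ eff I m z') (cn I z)
      (by
        intro ω ω' hω h3
        rwa [← eff_congr hω])
      (by
        intro ω ω' hω h3 z' hz'
        rw [← eff_congr (m := ω) fun f hf => hω f ?_]
        · exact h3 z' hz'
        · intro hf2
          have h4 := hZ z (Finset.mem_insert_self z Z) z' (Finset.mem_insert_of_mem hz')
            (fun h5 => hz (h5 ▸ hz'))
          exact Finset.disjoint_left.1 h4 hf2 hf)
    have h2 : cnt (fun ω : T → Fin N => ¬ eff I ω z ∧ ∀ z' ∈ Z, ¬ eff I ω z') =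
        cnt (fun m : T → Fin N => ∀ z' ∈ insert z Z, ¬ eff I m z') := by
      congr 1
      funext m
      rw [eq_iff_iff, Finset.forall_mem_insert]
    rw [h2] at h1
    have h3 : (cnt (fun m : T → Fin N => ∀ z' ∈ insert z Z, ¬ eff I m z') : ℝ) * Q =
        (cnt (fun m : T → Fin N => ¬ eff I m z) : ℝ) *
          (cnt (fun m : T → Fin N => ∀ z' ∈ Z, ¬ eff I m z') : ℝ) := by
      rw [hQ]
      exact_mod_cast h1
    have h4 := cnt_not_eff h hN z
    rw [← hQ] at h4
    refine le_of_mul_le_mul_right ?_ hQ0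
    rw [h3, Finset.card_insert_of_notMem hz]
    refine (mul_le_mul h4 ih' (Nat.cast_nonneg _) (mul_nonneg hq0 hQ0.le)).trans (le_of_eq ?_)
    ring

end

end Pool.Agent.K1H87.KF
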