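import Mathlib
import Pool.Agent.K1H87.KF.Spread

set_option autoImplicit false

/-!
# An independent set that meets all long paths: the local lemma
-/

namespace Pool.Agent.K1H87.KF

open Finset Pool.Agent.Helper635.LLL Pool.Agent.W842.KF Pool.Agent.W723.KF

theorem numer (D : ℝ) (hD : 1 ≤ D) :
    4 * (2 * Real.exp (-(32 * D))) * (65536 * D ^ 10) ≤ 1 := by
  have h1 : D ≤ Real.exp D := by
    have := Real.add_one_le_exp D
    linarith
  have h2 : D ^ 10 ≤ Real.exp (10 * D) := by
    have h3 := pow_le_pow_left₀ (by linarith : 0 ≤ D) h1 10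
    rw [← Real.exp_nat_mul] at h3
    exact_mod_cast h3
  have h3 : (524288 : ℝ) ≤ Real.exp (22 * D) := by
    have h4 : (2 : ℝ) ≤ Real.exp 1 := by
      have := Real.add_one_le_exp (1 : ℝ)
      linarith
    have h5 : (2 : ℝ) ^ 22 ≤ Real.exp (22 * 1) := by
      have h6 := pow_le_pow_left₀ (by norm_num : (0 : ℝ) ≤ 2) h4 22
      rw [← Real.exp_nat_mul] at h6
      exact_mod_cast h6
    have h6 : Real.exp (22 * 1) ≤ Real.exp (22 * D) := Real.exp_le_exp.2 (by linarith)
    refine le_trans ?_ (h5.trans h6)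
    norm_num
  have h4 : Real.exp (-(32 * D)) * Real.exp (10 * D) * Real.exp (22 * D) = 1 := by
    rw [← Real.exp_add, ← Real.exp_add]
    have : -(32 * D) + 10 * D + 22 * D = 0 := by ring
    rw [this, Real.exp_zero]
  have hE := Real.exp_pos (-(32 * D))
  have hE2 := Real.exp_pos (10 * D)
  calc 4 * (2 * Real.exp (-(32 * D))) * (65536 * D ^ 10)
      = Real.exp (-(32 * D)) * D ^ 10 * 524288 := by ring
    _ ≤ Real.exp (-(32 * D)) * Real.exp (10 * D) * Real.exp (22 * D) := by
        apply mul_le_mul _ h3 (by norm_num) (by positivity)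
        exact mul_le_mul_of_nonneg_left h2 hE.le
    _ = 1 := h4

open Classical in
/-- An independent set of `I` that meets all paths of `H` with `128 (d + 1) ^ 4` vertices. -/
theorem abstract_cut {T : Type} [Fintype T] (H I : SimpleGraph T) (d l : ℕ)
    (hl : l + 1 = 128 * (d + 1) ^ 4)
    (hH : ∀ e, (nb H e).card ≤ 2) (hI : ∀ e, (nb I e).card ≤ d) :
    ∃ S : Finset T, (∀ e ∈ S, ∀ f ∈ S, ¬ I.Adj e f) ∧
      ∀ e, ∀ w ∈ pths H e l, ∃ i, w i ∈ S := by
  set N := 2 * (d + 1) with hN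
  have hN1 : 1 ≤ N := by omega
  have hN0 : (0 : ℝ) < N := by exact_mod_cast hN1
  have hNd : (N : ℝ) = 2 * ((d : ℝ) + 1) := by
    rw [hN]
    push_cast
    ring
  have hD1 : (1 : ℝ) ≤ (d : ℝ) + 1 := by
    have : (0 : ℝ) ≤ d := Nat.cast_nonneg d
    linarith
  have hcard : 0 < Fintype.card (T → Fin N) := by
    rw [Fintype.card_pos_iff]
    exact ⟨fun _ => ⟨0, hN1⟩⟩
  have hq0 : 0 ≤ 1 - 1 / (2 * (N : ℝ)) := by
    have h1 : (1 : ℝ) ≤ N := by exact_mod_cast hN1
    have : 1 / (2 * (N : ℝ)) ≤ 1 := by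
      rw [div_le_one (by positivity)]
      linarith
    linarith
  have hq1 : 1 - 1 / (2 * (N : ℝ)) ≤ 1 := by
    have : 0 ≤ 1 / (2 * (N : ℝ)) := by positivity
    linarith
  let B : T → (T → Fin N) → Prop := fun e m => ∃ w ∈ pths H e l, ∀ i, ¬ eff I m (w i)
  let S : T → Finset T := fun e => (bl H e l).biUnion (cn I)
  have hdep : ∀ e ∈ (univ : Finset T), Pool.Agent.Helper635.LLL.DependsOn (B e) (S e) := by
    rintro e _ m m' hm ⟨w, hw, h⟩
    refine ⟨w, hw, fun i => ?_⟩
    rw [← eff_congr (m := m) fun f hf => hm f ?_]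
    · exact h i
    · exact Finset.mem_biUnion.2 ⟨w i, (Pool.Agent.W378.KF.t_grow T H e l).2 w hw i, hf⟩
  -- one path
  have hpath : ∀ (e : T) (w : Fin (l + 1) → T), w ∈ pths H e l →
      (cnt (fun m : T → Fin N => ∀ i, ¬ eff I m (w i)) : ℝ) ≤
        Real.exp (-(32 * ((d : ℝ) + 1))) * Fintype.card (T → Fin N) := by
    intro e w hw
    obtain ⟨Z, hZ1, hZ2, hZ3⟩ := spread hI (univ.image w)
    have h1 := cnt_no_eff hI hN Z hZ2
    have h0 : cnt (fun m : T → Fin N => ∀ i, ¬ eff I m (w i)) ≤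
        cnt (fun m : T → Fin N => ∀ z ∈ Z, ¬ eff I m z) := by
      refine cnt_mono ?_
      intro m h z hz
      obtain ⟨i, -, rfl⟩ := Finset.mem_image.1 (hZ1 hz)
      exact h i
    have h2 : (cnt (fun m : T → Fin N => ∀ i, ¬ eff I m (w i)) : ℝ) ≤
        cnt (fun m : T → Fin N => ∀ z ∈ Z, ¬ eff I m z) := by
      exact_mod_cast h0
    refine h2.trans (h1.trans ?_)
    apply mul_le_mul_of_nonneg_right _ (Nat.cast_nonneg _)
    rw [Finset.card_image_of_injective _ (mem_pths.1 hw).2.1, Finset.card_univ,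
      Fintype.card_fin, hl] at hZ3
    have h3 : 128 * (d + 1) ^ 2 ≤ Z.card := by
      have h4 : (d + 1) * (d + 1) * (128 * (d + 1) ^ 2) ≤ (d + 1) * (d + 1) * Z.card := by
        refine le_trans (le_of_eq ?_) hZ3
        ring
      exact Nat.le_of_mul_le_mul_left h4 (by positivity)
    refine (pow_le_pow_of_le_one hq0 hq1 h3).trans ?_
    have h4 : 1 - 1 / (2 * (N : ℝ)) ≤ Real.exp (-(1 / (2 * (N : ℝ)))) := by
      have := Real.add_one_le_exp (-(1 / (2 * (N : ℝ))))
      linarith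
    refine (pow_le_pow_left₀ hq0 h4 _).trans ?_
    rw [← Real.exp_nat_mul]
    apply Real.exp_le_exp.2
    push_cast
    rw [hNd]
    apply le_of_eq
    field_simp
    ring
  have hprob : ∀ e ∈ (univ : Finset T), (cnt (B e) : ℝ) ≤
      (2 * Real.exp (-(32 * ((d : ℝ) + 1)))) * Fintype.card (T → Fin N) := by
    intro e _
    refine (cnt_ex (pths H e l) (fun w (m : T → Fin N) => ∀ i, ¬ eff I m (w i))).trans ?_
    refine (Finset.sum_le_sum fun w hw => hpath e w hw).trans ?_
    rw [Finset.sum_const, nsmul_eq_mul, mul_assoc]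
    apply mul_le_mul_of_nonneg_right _ (by positivity)
    exact_mod_cast Pool.Agent.W215.KF.t_paths T H hH e l
  have hdd : ∀ e ∈ (univ : Finset T),
      ((univ : Finset T).filter fun f => ¬ Disjoint (S e) (S f)).card ≤
        65536 * (d + 1) ^ 10 := by
    intro e _
    have hsub : ((univ : Finset T).filter fun f => ¬ Disjoint (S e) (S f)) ⊆
        (bl H e l).biUnion fun g => (cn2 I g).biUnion fun g' => bl H g' l := by
      intro f hf
      have h1 := (Finset.mem_filter.1 hf).2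
      obtain ⟨z, hz1, hz2⟩ := Finset.not_disjoint_iff.1 h1
      obtain ⟨g, hg1, hg2⟩ := Finset.mem_biUnion.1 hz1
      obtain ⟨g', hg3, hg4⟩ := Finset.mem_biUnion.1 hz2
      refine Finset.mem_biUnion.2 ⟨g, hg1, Finset.mem_biUnion.2 ⟨g', ?_, ?_⟩⟩
      · rw [mem_cn2, Finset.not_disjoint_iff]
        exact ⟨z, hg2, hg4⟩
      · exact Pool.Agent.W378.KF.bl_symm hg3
    have hball : ∀ g : T, (bl H g l).card ≤ 256 * (d + 1) ^ 4 := by
      intro g
      have h1 := Pool.Agent.W378.KF.t_ball T H hH g l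
      omega
    refine (Finset.card_le_card hsub).trans ?_
    refine (Finset.card_biUnion_le_card_mul _ _ ((d + 1) * (d + 1) * (256 * (d + 1) ^ 4))
      fun g _ => ?_).trans ?_
    · refine (Finset.card_biUnion_le_card_mul _ _ (256 * (d + 1) ^ 4)
        fun g' _ => hball g').trans ?_
      exact Nat.mul_le_mul_right _ (card_cn2 hI g)
    · refine (Nat.mul_le_mul_right _ (hball e)).trans (le_of_eq ?_)
      ring
  obtain ⟨m, hm⟩ := lll (univ : Finset T) B S hdep (2 * Real.exp (-(32 * ((d : ℝ) + 1))))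
    (65536 * (d + 1) ^ 10) (by positivity) hprob hdd
    (by
      have h1 := numer ((d : ℝ) + 1) hD1
      push_cast
      exact h1)
    (by
      have : 1 ≤ (d + 1) ^ 10 := Nat.one_le_pow _ _ (by omega)
      omega) hcard
  refine ⟨univ.filter fun e => eff I m e, ?_, ?_⟩
  · intro e he f hf hadj
    have h1 := (Finset.mem_filter.1 he).2
    have h2 := (Finset.mem_filter.1 hf).2
    exact h1.2 f hadj h2.1
  · intro e w hw
    by_contra hcon
    push Not at hcon
    refine hm e (Finset.mem_univ e) ⟨w, hw, fun i h => ?_⟩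
    exact hcon i (Finset.mem_filter.2 ⟨Finset.mem_univ _, h⟩)

end Pool.Agent.K1H87.KF
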