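import Mathlib
import Pool.Agent.W842.KF.Stm

set_option autoImplicit false

/-!
# Few darts of special edges at the components of the other edges

In a graph of maximum degree at most two, every component of a spanning subgraph `F` has at most two
darts which are not in `F`.
-/

namespace Pool.Agent.K1H87.KF

open Finset Pool.Agent.W842.KF

variable {V : Type} [Fintype V]

/-- the sum of the degrees in a component -/
theorem sum_deg (F : SimpleGraph V) (x : V) :
    2 * (cmp F x).card ≤ ∑ y ∈ cmp F x, (nb F y).card + 2 := by
  classical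
  set C := F.connectedComponentMk x with hC
  have hcon := C.connected_toSimpleGraph
  have h1 := hcon.card_vert_le_card_edgeSet_add_one
  have hmem : ∀ y, y ∈ C ↔ y ∈ cmp F x := by
    intro y
    rw [mem_cmp]
    constructor
    · intro h
      have h2 : F.connectedComponentMk y = C := h
      exact (SimpleGraph.ConnectedComponent.exact h2).symm
    · intro h
      exact (SimpleGraph.ConnectedComponent.sound h.symm : F.connectedComponentMk y = C)
  have hcard : Nat.card C = (cmp F x).card := by
    rw [Nat.card_eq_fintype_card, ← Fintype.card_coe]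
    exact Fintype.card_congr (Equiv.subtypeEquivRight hmem)
  have hsum := C.toSimpleGraph.sum_degrees_eq_twice_card_edges
  have hedge : Nat.card C.toSimpleGraph.edgeSet = #C.toSimpleGraph.edgeFinset := by
    rw [Nat.card_eq_fintype_card, ← SimpleGraph.edgeFinset_card]
  have hdeg : ∀ v : C, C.toSimpleGraph.degree v = (nb F v.1).card := by
    intro v
    rw [← SimpleGraph.card_neighborFinset_eq_degree]
    refine Finset.card_bij (fun u _ => u.1) ?_ ?_ ?_
    · intro u hu
      rw [SimpleGraph.mem_neighborFinset] at hu
      rw [mem_nb]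
      exact hu
    · intro a _ b _ h
      exact Subtype.ext h
    · intro u hu
      rw [mem_nb] at hu
      have h2 : u ∈ C := C.mem_supp_of_adj_mem_supp v.2 hu
      exact ⟨⟨u, h2⟩, by rw [SimpleGraph.mem_neighborFinset]; exact hu, rfl⟩
  have hsum2 : ∑ y ∈ cmp F x, (nb F y).card = ∑ v : C, C.toSimpleGraph.degree v := by
    rw [Finset.sum_congr rfl fun v _ => hdeg v]
    symm
    refine Finset.sum_bij (fun v _ => v.1) ?_ ?_ ?_ ?_
    · intro v _
      exact (hmem _).1 v.2
    · intro a _ b _ h
      exact Subtype.ext h
    · intro y hy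
      exact ⟨⟨y, (hmem _).2 hy⟩, Finset.mem_univ _, rfl⟩
    · intro v _
      rfl
  rw [hsum2, hsum, ← hcard]
  omega

open Classical in
/-- the darts of `C` outside of `F` at the component of `x` in `F` -/
noncomputable def ends (C F : SimpleGraph V) (x : V) : Finset (V × V) :=
  univ.filter fun z => F.Reachable x z.1 ∧ C.Adj z.1 z.2 ∧ ¬ F.Adj z.1 z.2

theorem mem_ends {C F : SimpleGraph V} {x : V} {z : V × V} :
    z ∈ ends C F x ↔ F.Reachable x z.1 ∧ C.Adj z.1 z.2 ∧ ¬ F.Adj z.1 z.2 := by
  classical
  unfold ends
  simp

/-- at most two darts outside of `F` -/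
theorem card_ends {C F : SimpleGraph V} (hFC : F ≤ C) (hC : ∀ u, (nb C u).card ≤ 2) (x : V) :
    (ends C F x).card ≤ 2 := by
  classical
  have h1 := sum_deg F x
  have h2 : (ends C F x).card ≤ ∑ y ∈ cmp F x, (nb C y \ nb F y).card := by
    have hsub : ends C F x ⊆ (cmp F x).biUnion fun y => (nb C y \ nb F y).image fun z => (y, z) := by
      intro z hz
      rw [mem_ends] at hz
      rw [Finset.mem_biUnion]
      refine ⟨z.1, mem_cmp.2 hz.1, ?_⟩
      rw [Finset.mem_image]
      exact ⟨z.2, by rw [Finset.mem_sdiff, mem_nb, mem_nb]; exact hz.2, rfl⟩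
    refine (Finset.card_le_card hsub).trans (Finset.card_biUnion_le.trans ?_)
    exact Finset.sum_le_sum fun y _ => Finset.card_image_le
  have h3 : ∀ y, (nb C y \ nb F y).card + (nb F y).card ≤ 2 := by
    intro y
    have h4 : nb F y ⊆ nb C y := by
      intro z hz
      rw [mem_nb] at hz ⊢
      exact hFC hz
    rw [Finset.card_sdiff_add_card_eq_card h4]
    exact hC y
  have h4 : ∑ y ∈ cmp F x, (nb C y \ nb F y).card + ∑ y ∈ cmp F x, (nb F y).card ≤
      2 * (cmp F x).card := by
    rw [← Finset.sum_add_distrib]
    refine (Finset.sum_le_sum fun y _ => h3 y).trans ?_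
    rw [Finset.sum_const, smul_eq_mul, mul_comm]
  omega

end Pool.Agent.K1H87.KF
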