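import Mathlib
import Pool.Agent.K1H87.KF.Struct
import Pool.Agent.K1H87.KF.Abs

set_option autoImplicit false

/-!
# Cutting the Kempe chains at hot edges only

`HG` is a subgraph of `Γ`, the graph of the hot edges.  Two hot edges of the same colour class are
consecutive if they are joined by edges of the class that are not hot.  This gives a graph of
maximum degree two on the hot edges, so the local lemma finds few hot edges, far away from each
other in a given interference graph, such that between them the Kempe chains have few hot edges.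
-/

namespace Pool.Agent.K1H87.KF

open Finset Pool.Agent.W842.KF

variable {V : Type} [Fintype V]

/-- consecutive hot edges -/
def hs (Γ HG : SimpleGraph V) (c : V → V → ℕ) (σ : ℕ → ℕ) : SimpleGraph (Sym2 V) where
  Adj e f := e ≠ f ∧ ∃ (P : ℕ) (x y x' y' : V), e = s(x, y) ∧ f = s(x', y') ∧
    (cls HG c σ P).Adj x y ∧ (cls HG c σ P).Adj x' y' ∧ (cls (Γ \ HG) c σ P).Reachable x x'
  symm := by
    constructor
    rintro e f ⟨hne, P, x, y, x', y', h1, h2, h3, h4, h5⟩
    exact ⟨hne.symm, P, x', y', x, y, h2, h1, h4, h3, h5.symm⟩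
  loopless := ⟨fun e h => h.1 rfl⟩

theorem hs_deg {Γ HG : SimpleGraph V} {c : V → V → ℕ} {σ : ℕ → ℕ} (hHG : HG ≤ Γ) (hcol : Col Γ c)
    (hσ : ∀ x, σ (σ x) = x) (e : Sym2 V) : (nb (hs Γ HG c σ) e).card ≤ 2 := by
  classical
  induction e using Sym2.ind with
  | _ x y =>
    set P := key σ (c x y) with hP
    set C := cls Γ c σ P with hC
    set F := cls (Γ \ HG) c σ P with hF
    by_cases hxy : (cls HG c σ P).Adj x y
    · have hFC : F ≤ C := fun u v h => ⟨h.1.1, h.2.1, h.2.2⟩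
      have hdeg : ∀ u, (nb C u).card ≤ 2 := Pool.Agent.W215.KF.t_cls V Γ c σ hcol hσ P
      have hsub : nb (hs Γ HG c σ) s(x, y) ⊆
          ((ends C F x).erase (x, y)).image (fun z => s(z.1, z.2)) ∪
          ((ends C F y).erase (y, x)).image (fun z => s(z.1, z.2)) := by
        intro f hf
        obtain ⟨hne, P', x1, y1, x', y', h1, h2, h3, h4, h5⟩ := mem_nb.1 hf
        have hPP : P' = P := by
          rcases Sym2.eq_iff.1 h1 with ⟨rfl, rfl⟩ | ⟨rfl, rfl⟩
          · exact h3.2.1.symm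
          · exact h3.2.2.symm
        subst hPP
        have hz : ∀ x2, F.Reachable x2 x' → (x', y') ∈ ends C F x2 := by
          intro x2 h
          rw [mem_ends]
          refine ⟨h, ⟨hHG h4.1, h4.2.1, h4.2.2⟩, fun h6 => ?_⟩
          exact h6.1.2 h4.1
        rw [Finset.mem_union, Finset.mem_image, Finset.mem_image]
        rcases Sym2.eq_iff.1 h1 with ⟨rfl, rfl⟩ | ⟨rfl, rfl⟩
        · left
          refine ⟨(x', y'), Finset.mem_erase.2 ⟨fun h => hne ?_, hz _ h5⟩, h2.symm⟩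
          rw [h2, (Prod.mk.inj h).1, (Prod.mk.inj h).2]
        · right
          refine ⟨(x', y'), Finset.mem_erase.2 ⟨fun h => hne ?_, hz _ h5⟩, h2.symm⟩
          rw [h2, (Prod.mk.inj h).1, (Prod.mk.inj h).2]
          exact Sym2.eq_swap
      have hx : (x, y) ∈ ends C F x := by
        rw [mem_ends]
        exact ⟨SimpleGraph.Reachable.refl _, ⟨hHG hxy.1, hxy.2.1, hxy.2.2⟩, fun h => h.1.2 hxy.1⟩
      have hy : (y, x) ∈ ends C F y := by
        rw [mem_ends]
        exact ⟨SimpleGraph.Reachable.refl _, ⟨hHG hxy.1.symm, hxy.2.2, hxy.2.1⟩,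
          fun h => h.1.2 hxy.1.symm⟩
      have h1 : ((ends C F x).erase (x, y)).card ≤ 1 := by
        rw [Finset.card_erase_of_mem hx]
        have := card_ends hFC hdeg x
        omega
      have h2 : ((ends C F y).erase (y, x)).card ≤ 1 := by
        rw [Finset.card_erase_of_mem hy]
        have := card_ends hFC hdeg y
        omega
      refine (Finset.card_le_card hsub).trans ((Finset.card_union_le _ _).trans ?_)
      exact add_le_add (Finset.card_image_le.trans h1) (Finset.card_image_le.trans h2)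
    · have hemp : nb (hs Γ HG c σ) s(x, y) = ∅ := by
        rw [Finset.eq_empty_iff_forall_notMem]
        intro f hf
        obtain ⟨hne, P', x1, y1, x', y', h1, h2, h3, h4, h5⟩ := mem_nb.1 hf
        apply hxy
        rcases Sym2.eq_iff.1 h1 with ⟨rfl, rfl⟩ | ⟨rfl, rfl⟩
        · rw [hP, h3.2.1]
          exact h3
        · rw [hP, h3.2.2]
          exact h3.symm
      rw [hemp]
      exact Nat.zero_le _

open Classical in
/-- the hot edges in the component of `x` -/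
noncomputable def hc (Γ HG : SimpleGraph V) (c : V → V → ℕ) (σ : ℕ → ℕ) (P : ℕ) (x : V) :
    Finset (Sym2 V) :=
  univ.filter fun f => ∃ a b, f = s(a, b) ∧ (cls Γ c σ P).Adj a b ∧ HG.Adj a b ∧
    (cls Γ c σ P).Reachable x a

theorem mem_hc {Γ HG : SimpleGraph V} {c : V → V → ℕ} {σ : ℕ → ℕ} {P : ℕ} {x : V}
    {f : Sym2 V} : f ∈ hc Γ HG c σ P x ↔ ∃ a b, f = s(a, b) ∧ (cls Γ c σ P).Adj a b ∧
      HG.Adj a b ∧ (cls Γ c σ P).Reachable x a := by
  classical
  unfold hc
  simp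

/-- remove a set of vertices -/
def iso {T : Type} (H : SimpleGraph T) (S : Finset T) : SimpleGraph T where
  Adj e f := H.Adj e f ∧ e ∉ S ∧ f ∉ S
  symm := ⟨fun _ _ h => ⟨h.1.symm, h.2.2, h.2.1⟩⟩
  loopless := ⟨fun e h => H.loopless.irrefl e h.1⟩

/-- the hot edges in a set of edges -/
def mg (HG : SimpleGraph V) (S : Finset (Sym2 V)) : SimpleGraph V where
  Adj u v := HG.Adj u v ∧ s(u, v) ∈ S
  symm := ⟨fun u v h => ⟨h.1.symm, by rw [Sym2.eq_swap]; exact h.2⟩⟩
  loopless := ⟨fun e h => HG.loopless.irrefl e h.1⟩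

/-- one step: a hot edge at the end of a cold stretch -/
theorem hs_step {Γ HG : SimpleGraph V} {c : V → V → ℕ} {σ : ℕ → ℕ} {S : Finset (Sym2 V)} {P : ℕ}
    {a b z z' : V} (h1 : (cls (Γ \ mg HG S) c σ P).Adj a b) (h2 : HG.Adj a b)
    (h3 : (cls (Γ \ mg HG S) c σ P).Adj z z') (h4 : HG.Adj z z')
    (h5 : (cls (Γ \ HG) c σ P).Reachable a z) :
    (iso (hs Γ HG c σ) S).Reachable s(a, b) s(z, z') := by
  by_cases hne : s(a, b) = s(z, z')
  · rw [hne]
  · refine SimpleGraph.Adj.reachable ⟨⟨hne, P, a, b, z, z', rfl, rfl, ⟨h2, h1.2.1, h1.2.2⟩,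
      ⟨h4, h3.2.1, h3.2.2⟩, h5⟩, fun h => ?_, fun h => ?_⟩
    · exact h1.1.2 ⟨h2, h⟩
    · exact h3.1.2 ⟨h4, h⟩

theorem hs_conn {Γ HG : SimpleGraph V} {c : V → V → ℕ} {σ : ℕ → ℕ} {S : Finset (Sym2 V)} {P : ℕ}
    {a0 b0 z : V} (h1 : (cls (Γ \ mg HG S) c σ P).Adj a0 b0) (h2 : HG.Adj a0 b0)
    (h3 : (cls (Γ \ mg HG S) c σ P).Reachable a0 z) :
    ∃ a b, (cls (Γ \ mg HG S) c σ P).Adj a b ∧ HG.Adj a b ∧
      (iso (hs Γ HG c σ) S).Reachable s(a0, b0) s(a, b) ∧
      (cls (Γ \ HG) c σ P).Reachable a z := by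
  rw [SimpleGraph.reachable_iff_reflTransGen] at h3
  induction h3 with
  | refl => exact ⟨a0, b0, h1, h2, SimpleGraph.Reachable.refl _, SimpleGraph.Reachable.refl _⟩
  | @tail z z' _ hz ih =>
    obtain ⟨a, b, g1, g2, g3, g4⟩ := ih
    by_cases hh : HG.Adj z z'
    · refine ⟨z', z, hz.symm, hh.symm, ?_, SimpleGraph.Reachable.refl _⟩
      rw [Sym2.eq_swap (a := z')]
      exact g3.trans (hs_step g1 g2 hz hh g4)
    · refine ⟨a, b, g1, g2, g3, g4.trans (SimpleGraph.Adj.reachable ?_)⟩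
      exact ⟨⟨hz.1.1, hh⟩, hz.2.1, hz.2.2⟩

/-- **Cutting the Kempe chains at hot edges.** -/
theorem hot_cut (Γ HG : SimpleGraph V) (c : V → V → ℕ) (σ : ℕ → ℕ) (d l : ℕ)
    (hl : l + 1 = 128 * (d + 1) ^ 4) (hHG : HG ≤ Γ) (hcol : Col Γ c) (hσ : ∀ x, σ (σ x) = x)
    (I : SimpleGraph (Sym2 V)) (hI : ∀ e, (nb I e).card ≤ d) :
    ∃ M : SimpleGraph V, M ≤ HG ∧
      (∀ u v u' v', M.Adj u v → M.Adj u' v' → ¬ I.Adj s(u, v) s(u', v')) ∧
      ∀ P x, (hc (Γ \ M) HG c σ P x).card ≤ 2 * l + 1 := by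
  classical
  have hH := hs_deg (Γ := Γ) (HG := HG) (c := c) (σ := σ) hHG hcol hσ
  obtain ⟨S, hS1, hS2⟩ := abstract_cut (hs Γ HG c σ) I d l hl hH hI
  refine ⟨mg HG S, fun u v h => h.1, fun u v u' v' h1 h2 => hS1 _ h1.2 _ h2.2, ?_⟩
  intro P x
  set H' := iso (hs Γ HG c σ) S with hH'
  have hle : H' ≤ hs Γ HG c σ := fun e f h => h.1
  have hdeg : ∀ e, (nb H' e).card ≤ 2 := by
    intro e
    refine (Finset.card_le_card ?_).trans (hH e)
    intro f hf
    rw [mem_nb] at hf ⊢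
    exact hle hf
  have hl1 : 1 ≤ l := by
    have : 1 ≤ (d + 1) ^ 4 := Nat.one_le_pow _ _ (by omega)
    omega
  have hemp : ∀ e, pths H' e l = ∅ := by
    intro e
    rw [Finset.eq_empty_iff_forall_notMem]
    intro w hw
    obtain ⟨hw0, hwinj, hwadj⟩ := mem_pths.1 hw
    obtain ⟨i, hi⟩ := hS2 e w (mem_pths.2 ⟨hw0, hwinj, fun i => hle (hwadj i)⟩)
    rcases Nat.lt_or_ge i.val l with hil | hil
    · exact (hwadj ⟨i.val, hil⟩).2.1 hi
    · have hi2 := i.isLt
      apply (hwadj ⟨l - 1, by omega⟩).2.2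
      have h2 : (⟨l - 1, by omega⟩ : Fin l).succ = i := by
        apply Fin.ext
        rw [Fin.val_succ]
        simp only
        omega
      rw [h2]
      exact hi
  rcases (hc (Γ \ mg HG S) HG c σ P x).eq_empty_or_nonempty with h0 | ⟨f0, hf0⟩
  · rw [h0]
    simp
  · obtain ⟨a0, b0, rfl, g1, g2, g3⟩ := mem_hc.1 hf0
    have hsub : hc (Γ \ mg HG S) HG c σ P x ⊆ cmp H' s(a0, b0) := by
      intro f hf
      obtain ⟨a', b', rfl, k1, k2, k3⟩ := mem_hc.1 hf
      obtain ⟨a, b, n1, n2, n3, n4⟩ := hs_conn g1 g2 (g3.symm.trans k3)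
      rw [mem_cmp]
      exact n3.trans (hs_step n1 n2 k1 k2 n4)
    refine (Finset.card_le_card hsub).trans ?_
    refine (Finset.card_le_card ((Pool.Agent.W378.KF.t_grow _ H' s(a0, b0) l).1 (hemp _))).trans ?_
    exact Pool.Agent.W378.KF.t_ball _ H' hdeg _ l

end Pool.Agent.K1H87.KF
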