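import Mathlib
import Pool.Agent.K1H87.KF.HotCut
import Pool.Agent.W613.KF.Flip
import Pool.Agent.W177.KF.Hoef

set_option autoImplicit false

/-!
# Random flips of Kempe chains with few hot edges

The weights are zero outside of the hot edges, so the event at a vertex depends only on the Kempe
chains through the hot edges at the vertex.
-/

namespace Pool.Agent.K1H87.KF

open Finset Pool.Agent.Helper635.LLL Pool.Agent.W842.KF Pool.Agent.W613.KF

open Classical in
/-- the vertices that share a Kempe chain with `v`, both with a hot edge on it -/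
noncomputable def shr {V : Type} [Fintype V] (Γ HG : SimpleGraph V) (c : V → V → ℕ) (σ : ℕ → ℕ)
    (v : V) : Finset V :=
  univ.filter fun w => ∃ P, (∃ u, Γ.Adj v u ∧ HG.Adj v u ∧ key σ (c v u) = P) ∧
    (∃ u, Γ.Adj w u ∧ HG.Adj w u ∧ key σ (c w u) = P) ∧ (cls Γ c σ P).Reachable v w

theorem mem_shr {V : Type} [Fintype V] {Γ HG : SimpleGraph V} {c : V → V → ℕ} {σ : ℕ → ℕ}
    {v w : V} : w ∈ shr Γ HG c σ v ↔ ∃ P, (∃ u, Γ.Adj v u ∧ HG.Adj v u ∧ key σ (c v u) = P) ∧
    (∃ u, Γ.Adj w u ∧ HG.Adj w u ∧ key σ (c w u) = P) ∧ (cls Γ c σ P).Reachable v w := by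
  classical
  unfold shr
  simp

theorem card_shr {V : Type} [Fintype V] {Γ HG : SimpleGraph V} {c : V → V → ℕ} {σ : ℕ → ℕ}
    (hcol : Col Γ c) {A L : ℕ} (hA : ∀ v, (nb HG v).card ≤ A)
    (hL : ∀ P x, (hc Γ HG c σ P x).card ≤ L) (v : V) :
    (shr Γ HG c σ v).card ≤ A * (L * 2) := by
  classical
  have hsub : shr Γ HG c σ v ⊆ (nb HG v).biUnion fun u =>
      (hc Γ HG c σ (key σ (c v u)) v).biUnion fun f => f.toFinset := by
    intro w hw
    obtain ⟨P, ⟨u, h1, h2, h3⟩, ⟨u', h4, h5, h6⟩, h7⟩ := mem_shr.1 hw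
    rw [Finset.mem_biUnion]
    refine ⟨u, mem_nb.2 h2, ?_⟩
    rw [Finset.mem_biUnion]
    refine ⟨s(w, u'), ?_, ?_⟩
    · rw [h3, mem_hc]
      exact ⟨w, u', rfl, ⟨h4, h6, by rw [hcol.1 u' w]; exact h6⟩, h5, h7⟩
    · rw [Sym2.mem_toFinset]
      exact Sym2.mem_mk_left w u'
  refine (Finset.card_le_card hsub).trans ?_
  refine (Finset.card_biUnion_le_card_mul _ _ (L * 2) fun u _ => ?_).trans
    (Nat.mul_le_mul_right _ (hA v))
  refine (Finset.card_biUnion_le_card_mul _ _ 2 fun f _ => ?_).trans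
    (Nat.mul_le_mul_right _ (hL _ _))
  rw [Sym2.card_toFinset]
  split_ifs <;> norm_num

theorem hot_flip (V : Type) [Fintype V] (Γ HG : SimpleGraph V) (c : V → V → ℕ) (σ : ℕ → ℕ)
    (K B q : ℕ) (φ Λ : ℝ) (a : V → V → Bool → ℕ) (hcol : Col Γ c) (hσ : ∀ x, σ (σ x) = x)
    (hkey : ∀ u v, Γ.Adj u v → key σ (c u v) < K)
    (hz : ∀ v u β, Γ.Adj v u → ¬ HG.Adj v u → a v u β = 0)
    (hB : ∀ v, (shr Γ HG c σ v).card ≤ B)
    (haq : ∀ v u, a v u false + a v u true ≤ q)
    (hφ : ∀ v, ∑ u ∈ nb Γ v, ((a v u false : ℝ) + a v u true) ≤ φ)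
    (hφ0 : 0 < φ) (hΛ0 : 0 < Λ) (hK : 1 ≤ K) (hB1 : 1 ≤ B)
    (h4 : 4 * Real.exp (-Λ) * (B : ℕ) ≤ 1) :
    ∃ b : V → V → Bool, (∀ u v, b u v = b v u) ∧
      (∀ u v w, Γ.Adj u v → Γ.Adj u w → key σ (c u v) = key σ (c u w) → b u v = b u w) ∧
      ∀ v, ∑ u ∈ nb Γ v, (a v u (b v u) : ℝ) ≤ φ / 2 + √(q * φ * Λ) := by
  classical
  have hcls := Pool.Agent.W215.KF.t_cls
  have hhoef := Pool.Agent.W177.KF.t_hoef
  have hK0 : 0 < K := hK
  let e : V → Fin K → Fin K × V := fun v P => (P, rep (cls Γ c σ P.val) v)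
  let f : V → Fin K → Bool → ℕ := fun v P β =>
    ∑ u ∈ (nb Γ v).filter (fun u => fk σ K hK0 (c v u) = P), a v u β
  have hsum : ∀ (v : V) (ω : Fin K × V → Bool),
      ∑ P : Fin K, (f v P (ω (e v P)) : ℝ) =
        ∑ u ∈ nb Γ v, (a v u (ω (e v (fk σ K hK0 (c v u)))) : ℝ) := by
    intro v ω
    rw [← Finset.sum_fiberwise_of_maps_to (s := nb Γ v) (t := (univ : Finset (Fin K)))
      (g := fun u => fk σ K hK0 (c v u)) (fun u _ => mem_univ _)]
    refine sum_congr rfl fun P _ => ?_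
    show ((∑ u ∈ (nb Γ v).filter (fun u => fk σ K hK0 (c v u) = P), a v u (ω (e v P)) : ℕ) : ℝ) = _
    push_cast
    refine sum_congr rfl fun u hu => ?_
    rw [(mem_filter.1 hu).2]
  have hsum2 : ∀ (v : V) (β : Bool), ∑ P : Fin K, (f v P β : ℝ) = ∑ u ∈ nb Γ v, (a v u β : ℝ) := by
    intro v β
    rw [← Finset.sum_fiberwise_of_maps_to (s := nb Γ v) (t := (univ : Finset (Fin K)))
      (g := fun u => fk σ K hK0 (c v u)) (fun u _ => mem_univ _)]
    refine sum_congr rfl fun P _ => ?_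
    show ((∑ u ∈ (nb Γ v).filter (fun u => fk σ K hK0 (c v u) = P), a v u β : ℕ) : ℝ) = _
    push_cast
    rfl
  have he : ∀ v, Function.Injective (e v) := fun v P P' h => (Prod.mk.inj h).1
  have hfq : ∀ v P, f v P false + f v P true ≤ 2 * q := by
    intro v P
    show ∑ u ∈ (nb Γ v).filter (fun u => fk σ K hK0 (c v u) = P), a v u false +
      ∑ u ∈ (nb Γ v).filter (fun u => fk σ K hK0 (c v u) = P), a v u true ≤ 2 * q
    rw [← sum_add_distrib]
    have hsub : (nb Γ v).filter (fun u => fk σ K hK0 (c v u) = P) ⊆ nb (cls Γ c σ P.val) v := by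
      intro u hu
      rw [mem_filter, mem_nb] at hu
      rw [mem_nb]
      have hk : key σ (c v u) = P.val := by
        rw [← hu.2, fk_val σ K hK0 _ (hkey v u hu.1)]
      refine ⟨hu.1, hk, ?_⟩
      rw [hcol.1 u v]
      exact hk
    have hc : ((nb Γ v).filter (fun u => fk σ K hK0 (c v u) = P)).card ≤ 2 :=
      (card_le_card hsub).trans (hcls V Γ c σ hcol hσ P.val v)
    refine (sum_le_card_nsmul _ _ q (fun u _ => haq v u)).trans ?_
    rw [smul_eq_mul]
    exact Nat.mul_le_mul_right q hc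
  have hfφ : ∀ v, ∑ P : Fin K, ((f v P false : ℝ) + f v P true) ≤ φ := by
    intro v
    rw [sum_add_distrib, hsum2, hsum2, ← sum_add_distrib]
    exact hφ v
  have hprob : ∀ v, (cnt (fun ω : Fin K × V → Bool =>
      φ / 2 + √(((2 * q : ℕ) : ℝ) * φ * Λ / 2) < ∑ P, (f v P (ω (e v P)) : ℝ)) : ℝ) ≤
      Real.exp (-Λ) * Fintype.card (Fin K × V → Bool) := by
    intro v
    have h1 := hhoef (Fin K × V) K (e v) (he v) (f v) (2 * q) φ Λ hφ0 hΛ0 (hfq v) (hfφ v)
    convert h1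
  have hsq : √(((2 * q : ℕ) : ℝ) * φ * Λ / 2) = √((q : ℝ) * φ * Λ) := by
    congr 1
    push_cast
    ring
  have hcp : ∀ inst : Fintype (Fin K × V → Bool), 0 < @Fintype.card _ inst := fun inst =>
    @Fintype.card_pos _ inst ⟨fun _ => false⟩
  obtain ⟨ω, hω⟩ := lll (T := Fin K × V) (C := Bool) (univ : Finset V)
    (fun v ω => φ / 2 + √(((2 * q : ℕ) : ℝ) * φ * Λ / 2) < ∑ P, (f v P (ω (e v P)) : ℝ))
    (fun v => ((nb Γ v).filter fun u => HG.Adj v u).image fun u => e v (fk σ K hK0 (c v u)))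
    (by
      intro v _ ω ω' hωω h
      have h1 : ∀ P, f v P (ω (e v P)) = f v P (ω' (e v P)) := by
        intro P
        by_cases hP : ∃ u, Γ.Adj v u ∧ HG.Adj v u ∧ fk σ K hK0 (c v u) = P
        · obtain ⟨u, g1, g2, g3⟩ := hP
          have h2 : ω (e v P) = ω' (e v P) := by
            apply hωω
            rw [mem_image]
            exact ⟨u, mem_filter.2 ⟨mem_nb.2 g1, g2⟩, by rw [g3]⟩
          rw [h2]
        · have h2 : ∀ β, f v P β = 0 := by
            intro β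
            refine sum_eq_zero fun u hu => ?_
            obtain ⟨g1, g2⟩ := mem_filter.1 hu
            rw [mem_nb] at g1
            exact hz v u β g1 fun g3 => hP ⟨u, g1, g3, g2⟩
          rw [h2, h2]
      simp only [← h1]
      exact h)
    (Real.exp (-Λ)) B (Real.exp_pos _).le
    (by
      intro v _
      convert hprob v)
    (by
      intro v _
      refine le_trans (card_le_card ?_) (hB v)
      intro w hw
      simp only [Finset.mem_filter, Finset.mem_univ, true_and] at hw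
      obtain ⟨x, hx1, hx2⟩ := Finset.not_disjoint_iff.1 hw
      obtain ⟨u, hu, hu2⟩ := mem_image.1 hx1
      obtain ⟨u', hu', hu3⟩ := mem_image.1 hx2
      obtain ⟨g1, g2⟩ := mem_filter.1 hu
      obtain ⟨g3, g4⟩ := mem_filter.1 hu'
      rw [mem_nb] at g1 g3
      rw [← hu3] at hu2
      obtain ⟨h1, h2⟩ := Prod.mk.inj hu2
      rw [mem_shr]
      have h5 := fk_val σ K hK0 _ (hkey v u g1)
      have h6 := fk_val σ K hK0 _ (hkey w u' g3)
      refine ⟨key σ (c v u), ⟨u, g1, g2, rfl⟩, ⟨u', g3, g4, ?_⟩, ?_⟩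
      · rw [← h5, ← h6, h1]
      · rw [← h1] at h2
        rw [h5] at h2
        exact rep_eq _ h2)
    h4 hB1 (hcp _)
  refine ⟨fun u v => if Γ.Adj u v then ω (e u (fk σ K hK0 (c u v))) else false, ?_, ?_, ?_⟩
  · intro u v
    by_cases huv : Γ.Adj u v
    · have hvu := huv.symm
      simp only [if_pos huv, if_pos hvu]
      have h1 : c v u = c u v := hcol.1 v u
      rw [h1]
      have h2 : (cls Γ c σ (fk σ K hK0 (c u v)).val).Adj u v := by
        rw [fk_val σ K hK0 _ (hkey u v huv)]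
        exact ⟨huv, rfl, by rw [h1]⟩
      show ω (_, rep _ u) = ω (_, rep _ v)
      rw [rep_adj _ h2]
    · have hvu : ¬ Γ.Adj v u := fun h => huv h.symm
      simp only [if_neg huv, if_neg hvu]
  · intro u v w huv huw hk
    simp only [if_pos huv, if_pos huw]
    have h1 : fk σ K hK0 (c u v) = fk σ K hK0 (c u w) := by
      unfold fk
      rw [Fin.mk.injEq, hk]
    rw [h1]
  · intro v
    have h1 := not_lt.1 (hω v (mem_univ _))
    rw [hsq, hsum] at h1
    refine le_trans (le_of_eq ?_) h1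
    refine sum_congr rfl fun u hu => ?_
    rw [mem_nb] at hu
    simp only [if_pos hu]

end Pool.Agent.K1H87.KF
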