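import Mathlib
import Pool.Agent.W842.KF.Stm
import Pool.Agent.W372.KF.Phase
import Pool.Agent.W853.KF.SG
import Pool.Agent.W52.KF.Rec

set_option autoImplicit false

/-!
# Several levels with an invariant of the removed edges
-/

namespace Pool.Agent.K1H87.KF

open Finset Pool.Agent.W842.KF

variable {V : Type} [Fintype V]

/-- the state after `j` binary digits: `R` is removed, `c1` is the current colouring -/
def St (Γ : SimpleGraph V) (c : V → V → ℕ) (K o b m : ℕ) {q : ℕ} (y : Fin q → V → V → ℕ)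
    (j : ℕ) (R : SimpleGraph V) (c1 : V → V → ℕ) (φ : ℝ) : Prop :=
  R ≤ Γ ∧ Col (Γ \ R) c1 ∧ (∀ u v, (Γ \ R).Adj u v → c1 u v < K) ∧
  (∀ u v, (Γ \ R).Adj u v → ¬ inT o b m (c u v) → c1 u v = c u v) ∧
  (∀ u v, (Γ \ R).Adj u v → inT o b m (c u v) → inT o b m (c1 u v)) ∧
  ∀ v, ∑ u ∈ nb (Γ \ R) v, ((alv o b m j y (c1 v u) v u).card : ℝ) ≤ φ

/-- the flipped colouring -/
noncomputable def fl (o b m j : ℕ) (c1 : V → V → ℕ) (bb : V → V → Bool) : V → V → ℕ :=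
  fun u v => if bb u v then sg o b m j (c1 u v) else c1 u v

/-- the weights -/
noncomputable def aw (o b m j : ℕ) {q : ℕ} (y : Fin q → V → V → ℕ) (c1 : V → V → ℕ)
    (v u : V) (β : Bool) : ℕ :=
  (alv o b m (j + 1) y (if β then sg o b m j (c1 v u) else c1 v u) v u).card

omit [Fintype V] in
theorem aw_le {o b m j q : ℕ} (hb : 1 ≤ b) (hj : j < m) (y : Fin q → V → V → ℕ)
    (c1 : V → V → ℕ) (v u : V) :
    aw o b m j y c1 v u false + aw o b m j y c1 v u true ≤ (alv o b m j y (c1 v u) v u).card := by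
  have h := Pool.Agent.W372.KF.alv_add Pool.Agent.W853.KF.t_sg (o := o) hb hj y (c1 v u) v u
  unfold aw
  simp only [if_true, Bool.false_eq_true, if_false]
  rw [h]
  split_ifs
  · exact le_refl _
  · exact Nat.zero_le _

/-- what one level gives -/
def Stp (Γ : SimpleGraph V) (o b m : ℕ) {q : ℕ} (y : Fin q → V → V → ℕ) (j : ℕ)
    (R : SimpleGraph V) (c1 : V → V → ℕ) (ψ : ℝ) (I' : SimpleGraph V → Prop) : Prop :=
  ∃ (M : SimpleGraph V) (bb : V → V → Bool), M ≤ Γ \ R ∧ I' (R ⊔ M) ∧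
    Col ((Γ \ R) \ M) (fl o b m j c1 bb) ∧
    ∀ v, ∑ u ∈ nb ((Γ \ R) \ M) v, (aw o b m j y c1 v u (bb v u) : ℝ) ≤ ψ

theorem st_step {Γ : SimpleGraph V} {c : V → V → ℕ} {K o b m q : ℕ} (hb : 1 ≤ b)
    (hobm : o + 2 ^ m * b ≤ K) {y : Fin q → V → V → ℕ} {j : ℕ} (hj : j < m) {R : SimpleGraph V}
    {c1 : V → V → ℕ} {φ ψ : ℝ} {I' : SimpleGraph V → Prop} (h : St Γ c K o b m y j R c1 φ)
    (hs : Stp Γ o b m y j R c1 ψ I') :
    ∃ R' c', I' R' ∧ St Γ c K o b m y (j + 1) R' c' ψ := by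
  obtain ⟨hR, hcol, hc1K, hun, hin, hsum⟩ := h
  obtain ⟨M, bb, hM, hI, hcol2, hsum2⟩ := hs
  have hsin : ∀ x, inT o b m x → inT o b m (sg o b m j x) :=
    fun x => (Pool.Agent.W853.KF.t_sg.1 o b m j hb hj x).2.1
  have hsub : Γ \ R ≤ Γ := sdiff_le
  have hMΓ : M ≤ Γ := hM.trans hsub
  have hsd : (Γ \ R) \ M = Γ \ (R ⊔ M) := sdiff_sdiff_left
  rw [hsd] at hcol2 hsum2
  have hadj : ∀ u v, (Γ \ (R ⊔ M)).Adj u v → (Γ \ R).Adj u v := by
    intro u v h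
    have : Γ \ (R ⊔ M) ≤ Γ \ R := by
      rw [← hsd]
      exact sdiff_le
    exact this h
  refine ⟨R ⊔ M, fl o b m j c1 bb, hI, sup_le hR hMΓ, hcol2, ?_, ?_, ?_, ?_⟩
  · intro u v h
    have h1 := hc1K u v (hadj u v h)
    unfold fl
    split_ifs
    · by_cases hx : inT o b m (c1 u v)
      · exact lt_of_lt_of_le (hsin _ hx).2 hobm
      · rw [sg_out hx]
        exact h1
    · exact h1
  · intro u v h hx
    have h1 := hun u v (hadj u v h) hx
    unfold fl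
    rw [h1, sg_out hx]
    simp
  · intro u v h hx
    have h1 := hin u v (hadj u v h) hx
    unfold fl
    split_ifs
    · exact hsin _ h1
    · exact h1
  · intro v
    exact hsum2 v

/-- **Several levels.** -/
theorem run {Γ : SimpleGraph V} {c : V → V → ℕ} {K o b m q : ℕ} (hb : 1 ≤ b)
    (hobm : o + 2 ^ m * b ≤ K) {y : Fin q → V → V → ℕ} (Inv : ℕ → SimpleGraph V → Prop)
    (j0 n : ℕ) (hn : j0 + n ≤ m) (A Λ : ℝ) (hA : 0 < A) (hΛ : 0 ≤ Λ)
    (step : ∀ i R c1 φ, i < n → Inv i R → 0 < φ → φ ≤ 2 * A + 12 * q * Λ →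
      St Γ c K o b m y (j0 + i) R c1 φ →
      Stp Γ o b m y (j0 + i) R c1 (φ / 2 + √(q * φ * Λ)) (Inv (i + 1)))
    (R0 : SimpleGraph V) (c0 : V → V → ℕ) (h0 : Inv 0 R0) (hs0 : St Γ c K o b m y j0 R0 c0 A) :
    ∃ R c', Inv n R ∧ St Γ c K o b m y (j0 + n) R c' (2 * A / 2 ^ n + 12 * q * Λ) := by
  let t : ℝ := √((q : ℝ) * Λ / 2)
  let g : ℕ → ℝ := fun j => Nat.rec (√A) (fun _ x => x / √2 + t) j
  have hg0 : g 0 = √A := rfl
  have hg : ∀ j, g (j + 1) = g j / √2 + t := fun j => rfl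
  have ht0 : 0 ≤ t := Real.sqrt_nonneg _
  have ht2 : t ^ 2 = (q : ℝ) * Λ / 2 := Real.sq_sqrt (by positivity)
  have hgpos : ∀ j, 0 < g j := by
    intro j
    induction j with
    | zero =>
      rw [hg0]
      exact Real.sqrt_pos.2 hA
    | succ j ih =>
      rw [hg j]
      have : (0 : ℝ) < √2 := Real.sqrt_pos.2 (by norm_num)
      have h3 : 0 < g j / √2 := div_pos ih this
      linarith
  have hgb : ∀ j, (g j) ^ 2 ≤ 2 * A / 2 ^ j + 12 * q * Λ := by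
    intro j
    have h8 := (Pool.Agent.W52.KF.t_rec A t g hA.le ht0 hg0 hg j).2
    rw [ht2] at h8
    linarith
  have hgb2 : ∀ j, (g j) ^ 2 ≤ 2 * A + 12 * q * Λ := by
    intro j
    refine (hgb j).trans ?_
    have : 2 * A / 2 ^ j ≤ 2 * A := div_le_self (by linarith) (one_le_pow₀ (by norm_num))
    linarith
  have main : ∀ j, j ≤ n → ∃ R c', Inv j R ∧ St Γ c K o b m y (j0 + j) R c' ((g j) ^ 2) := by
    intro j
    induction j with
    | zero =>
      intro _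
      refine ⟨R0, c0, h0, ?_⟩
      rw [hg0, Real.sq_sqrt hA.le]
      exact hs0
    | succ j ih =>
      intro hj
      obtain ⟨R, c1, hI, hS⟩ := ih (by omega)
      have h1 := step j R c1 ((g j) ^ 2) (by omega) hI (pow_pos (hgpos j) 2) (hgb2 j) hS
      obtain ⟨R', c', g1, g2⟩ := st_step hb hobm (by omega) hS h1
      refine ⟨R', c', g1, ?_⟩
      obtain ⟨k1, k2, k3, k4, k5, k6⟩ := g2
      refine ⟨k1, k2, k3, k4, k5, fun v => (k6 v).trans ?_⟩
      rw [hg j]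
      have hg1 := (hgpos j).le
      have h2 : (0 : ℝ) ≤ (q : ℝ) * Λ := by positivity
      have e1 : √((q : ℝ) * (g j) ^ 2 * Λ) = g j * √((q : ℝ) * Λ) := by
        rw [show (q : ℝ) * (g j) ^ 2 * Λ = (g j) ^ 2 * ((q : ℝ) * Λ) by ring,
          Real.sqrt_mul (sq_nonneg _), Real.sqrt_sq hg1]
      have e2 : t = √((q : ℝ) * Λ) / √2 := Real.sqrt_div h2 _
      have h3 : (√2 : ℝ) ^ 2 = 2 := Real.sq_sqrt (by norm_num)
      have h4 : (0 : ℝ) < √2 := Real.sqrt_pos.2 (by norm_num)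
      have h5 : (0 : ℝ) ≤ √((q : ℝ) * Λ) := Real.sqrt_nonneg _
      rw [e1, e2, ← add_div, div_pow, h3]
      have h6 : 0 ≤ g j * √((q : ℝ) * Λ) := mul_nonneg hg1 h5
      nlinarith [sq_nonneg (√((q : ℝ) * Λ))]
  obtain ⟨R, c', g1, k1, k2, k3, k4, k5, k6⟩ := main n le_rfl
  exact ⟨R, c', g1, k1, k2, k3, k4, k5, fun v => (k6 v).trans (hgb n)⟩

end Pool.Agent.K1H87.KF
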