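import Mathlib
import Pool.Agent.K1H87.KF.HotFlip
import Pool.Agent.K1H87.KF.Run

set_option autoImplicit false

/-!
# A level at which only alive edges are cut
-/

namespace Pool.Agent.K1H87.KF

open Finset Pool.Agent.W842.KF

variable {V : Type} [Fintype V]

/-- the tests of a dart are the tests of the opposite dart -/
def SymT {q : ℕ} (y : Fin q → V → V → ℕ) : Prop := ∀ i v u, ∃ i', y i' u v = y i v u

omit [Fintype V] in
theorem alv_symm {q : ℕ} {y : Fin q → V → V → ℕ} (hy : SymT y) {o b m j x : ℕ} {v u : V}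
    (h : alv o b m j y x v u ≠ ∅) : alv o b m j y x u v ≠ ∅ := by
  obtain ⟨i, hi⟩ := Finset.nonempty_iff_ne_empty.2 h
  obtain ⟨i', hi'⟩ := hy i v u
  rw [mem_alv] at hi
  apply Finset.nonempty_iff_ne_empty.1
  refine ⟨i', ?_⟩
  rw [mem_alv, hi']
  exact hi

/-- the alive edges -/
def hot (G : SimpleGraph V) (o b m j : ℕ) {q : ℕ} (y : Fin q → V → V → ℕ) (c1 : V → V → ℕ) :
    SimpleGraph V where
  Adj u v := G.Adj u v ∧ alv o b m j y (c1 u v) u v ≠ ∅ ∧ alv o b m j y (c1 v u) v u ≠ ∅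
  symm := ⟨fun _ _ h => ⟨h.1.symm, h.2.2, h.2.1⟩⟩
  loopless := ⟨fun e h => G.loopless.irrefl e h.1⟩

theorem hot_deg {G : SimpleGraph V} {o b m j q : ℕ} {y : Fin q → V → V → ℕ} {c1 : V → V → ℕ}
    {A : ℕ} {φ : ℝ} (hφ : φ ≤ A)
    (h : ∀ v, ∑ u ∈ nb G v, ((alv o b m j y (c1 v u) v u).card : ℝ) ≤ φ) (v : V) :
    (nb (hot G o b m j y c1) v).card ≤ A := by
  have h1 : ((nb (hot G o b m j y c1) v).card : ℝ) ≤ A := by
    refine le_trans ?_ ((h v).trans hφ)
    have hsub : nb (hot G o b m j y c1) v ⊆ nb G v := by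
      intro u hu
      rw [mem_nb] at hu ⊢
      exact hu.1
    have h2 : ((nb (hot G o b m j y c1) v).card : ℝ) ≤
        ∑ u ∈ nb (hot G o b m j y c1) v, ((alv o b m j y (c1 v u) v u).card : ℝ) := by
      rw [Finset.card_eq_sum_ones]
      push_cast
      refine Finset.sum_le_sum fun u hu => ?_
      rw [mem_nb] at hu
      have h3 := Finset.card_pos.2 (Finset.nonempty_iff_ne_empty.2 hu.2.1)
      exact_mod_cast h3
    exact h2.trans (Finset.sum_le_sum_of_subset_of_nonneg hsub fun _ _ _ => Nat.cast_nonneg _)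
  exact_mod_cast h1

/-- edges of `H` that share a vertex -/
def inc (H : SimpleGraph V) : SimpleGraph (Sym2 V) where
  Adj e f := e ≠ f ∧ e ∈ H.edgeSet ∧ f ∈ H.edgeSet ∧ ∃ x, x ∈ e ∧ x ∈ f
  symm := by
    constructor
    rintro e f ⟨h1, h2, h3, x, h4, h5⟩
    exact ⟨h1.symm, h3, h2, x, h5, h4⟩
  loopless := ⟨fun e h => h.1 rfl⟩

theorem inc_deg {H : SimpleGraph V} {A : ℕ} (hA : ∀ v, (nb H v).card ≤ A) (e : Sym2 V) :
    (nb (inc H) e).card ≤ 2 * A := by
  classical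
  have hsub : nb (inc H) e ⊆ e.toFinset.biUnion fun x => (nb H x).image fun z => s(x, z) := by
    intro f hf
    obtain ⟨hne, h1, h2, x, h3, h4⟩ := mem_nb.1 hf
    rw [Finset.mem_biUnion]
    refine ⟨x, Sym2.mem_toFinset.2 h3, ?_⟩
    obtain ⟨z, rfl⟩ := h4
    rw [Finset.mem_image]
    exact ⟨z, mem_nb.2 ((SimpleGraph.mem_edgeSet H).1 h2), rfl⟩
  refine (Finset.card_le_card hsub).trans ?_
  refine (Finset.card_biUnion_le_card_mul _ _ A fun x _ =>
    Finset.card_image_le.trans (hA x)).trans (Nat.mul_le_mul_right _ ?_)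
  rw [Sym2.card_toFinset]
  split_ifs <;> norm_num

theorem nb_sup (R M : SimpleGraph V) (v : V) :
    (nb (R ⊔ M) v).card ≤ (nb R v).card + (nb M v).card := by
  classical
  have : nb (R ⊔ M) v ⊆ nb R v ∪ nb M v := by
    intro u hu
    rw [mem_nb] at hu
    rw [Finset.mem_union, mem_nb, mem_nb]
    exact hu
  exact (Finset.card_le_card this).trans (Finset.card_union_le _ _)

/-- **One level of the second kind.** -/
theorem b_step {Γ : SimpleGraph V} {c : V → V → ℕ} {K o b m q : ℕ} (hK : 1 ≤ K) (hb : 1 ≤ b)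
    {y : Fin q → V → V → ℕ} (hy : SymT y) {j : ℕ} (hj : j < m)
    {R : SimpleGraph V} {c1 : V → V → ℕ} {φ Λ : ℝ} (hφ0 : 0 < φ) (hΛ : 0 < Λ) (A l r : ℕ)
    (hA : 1 ≤ A) (hφA : φ ≤ A) (hl : l + 1 = 128 * (2 * A + 1) ^ 4)
    (h4 : 4 * Real.exp (-Λ) * ((A * ((2 * l + 1) * 2) : ℕ) : ℝ) ≤ 1)
    (hR : ∀ v, (nb R v).card ≤ r)
    (h : St Γ c K o b m y j R c1 φ) :
    Stp Γ o b m y j R c1 (φ / 2 + √(q * φ * Λ)) (fun R' => ∀ v, (nb R' v).card ≤ r + 1) := by
  classical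
  obtain ⟨hRΓ, hcol, hc1K, hun, hin, hsum⟩ := h
  have hsg := Pool.Agent.W853.KF.t_sg.1 o b m j hb hj
  have hinv : ∀ x, sg o b m j (sg o b m j x) = x := fun x => (hsg x).1
  set G := Γ \ R with hG
  set HG := hot G o b m j y c1 with hHG
  have hHGG : HG ≤ G := fun u v h => h.1
  have hdeg : ∀ v, (nb HG v).card ≤ A := hot_deg hφA hsum
  obtain ⟨M, hM1, hM2, hM3⟩ := hot_cut G HG c1 (sg o b m j) (2 * A) l hl hHGG hcol hinv (inc HG)
    (inc_deg hdeg)
  have hMG : M ≤ G := hM1.trans hHGG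
  have hMd : ∀ v, (nb M v).card ≤ 1 := by
    intro v
    rw [Finset.card_le_one]
    intro u hu u' hu'
    rw [mem_nb] at hu hu'
    by_contra hne
    refine hM2 v u v u' hu hu' ⟨fun h => hne ?_, hM1 hu, hM1 hu', v, Sym2.mem_mk_left _ _,
      Sym2.mem_mk_left _ _⟩
    exact Sym2.congr_right.1 h
  have hle : G \ M ≤ G := sdiff_le
  have hcol' : Col (G \ M) c1 :=
    ⟨hcol.1, fun u v w huv huw hne => hcol.2 u v w (hle huv) (hle huw) hne⟩
  have hkey : ∀ u v, (G \ M).Adj u v → key (sg o b m j) (c1 u v) < K := fun u v h =>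
    lt_of_le_of_lt (min_le_left _ _) (hc1K u v (hle h))
  have hz : ∀ v u β, (G \ M).Adj v u → ¬ HG.Adj v u → aw o b m j y c1 v u β = 0 := by
    intro v u β h1 h2
    have h3 : alv o b m j y (c1 v u) v u = ∅ := by
      by_contra h3
      apply h2
      refine ⟨hle h1, h3, ?_⟩
      rw [hcol.1 u v]
      exact alv_symm hy h3
    have h4 := aw_le (o := o) hb hj y c1 v u
    rw [h3, Finset.card_empty] at h4
    cases β
    · omega
    · omega
  have hB : ∀ v, (shr (G \ M) HG c1 (sg o b m j) v).card ≤ A * ((2 * l + 1) * 2) :=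
    card_shr hcol' hdeg hM3
  obtain ⟨bb, hb1, hb2, hb3⟩ := hot_flip V (G \ M) HG c1 (sg o b m j) K (A * ((2 * l + 1) * 2)) q φ
    Λ (fun v u β => aw o b m j y c1 v u β) hcol' hinv hkey hz hB
    (fun v u => (aw_le hb hj y c1 v u).trans (Pool.Agent.W372.KF.alv_card_le y _ v u))
    (by
      intro v
      refine le_trans (Finset.sum_le_sum fun u _ => ?_) ((Finset.sum_le_sum_of_subset_of_nonneg
        (Pool.Agent.W372.KF.nb_mono hle v) fun _ _ _ => Nat.cast_nonneg _).trans (hsum v))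
      exact_mod_cast aw_le hb hj y c1 v u) hφ0 hΛ hK
    (Nat.mul_pos hA (by omega)) h4
  refine ⟨M, bb, hMG, fun v => (nb_sup R M v).trans (add_le_add (hR v) (hMd v)), ?_, hb3⟩
  exact Pool.Agent.W215.KF.t_kempe V (G \ M) c1 (sg o b m j) bb hcol' hinv hb1 hb2

end Pool.Agent.K1H87.KF
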