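import Mathlib
import Pool.Agent.K1H87.KF.HotCut
import Pool.Agent.K1H87.KF.Run
import Pool.Agent.K1H87.KF.BStep
import Pool.Agent.W613.KF.Flip
import Pool.Agent.W177.KF.Hoef

set_option autoImplicit false

/-!
# A level at which only edges far away from the removed edges are cut
-/

namespace Pool.Agent.K1H87.KF

open Finset Pool.Agent.W842.KF

variable {V : Type} [Fintype V]

/-- balls are not too large -/
theorem ball_le {Γ : SimpleGraph V} {K : ℕ} (h : ∀ v, (nb Γ v).card ≤ K) (x : V) (t : ℕ) :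
    (bl Γ x t).card ≤ (K + 1) ^ t := by
  classical
  induction t with
  | zero => simp [bl]
  | succ t ih =>
    have h1 : bl Γ x (t + 1) = bl Γ x t ∪ (bl Γ x t).biUnion (nb Γ) := by
      ext z
      rw [bl_succ, Finset.mem_union, Finset.mem_biUnion]
      simp only [mem_nb]
    rw [h1]
    refine (Finset.card_union_le _ _).trans ?_
    have h2 := Finset.card_biUnion_le_card_mul (bl Γ x t) (nb Γ) K fun v _ => h v
    calc (bl Γ x t).card + ((bl Γ x t).biUnion (nb Γ)).card
        ≤ (bl Γ x t).card + (bl Γ x t).card * K := Nat.add_le_add_left h2 _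
      _ = (bl Γ x t).card * (K + 1) := by ring
      _ ≤ (K + 1) ^ t * (K + 1) := Nat.mul_le_mul_right _ ih
      _ = (K + 1) ^ (t + 1) := by ring

/-- edges of `Γ` at distance at most `t` -/
def far (Γ : SimpleGraph V) (t : ℕ) : SimpleGraph (Sym2 V) where
  Adj e f := e ≠ f ∧ e ∈ Γ.edgeSet ∧ f ∈ Γ.edgeSet ∧ ∃ x, x ∈ e ∧ ∃ y, y ∈ f ∧ y ∈ bl Γ x t
  symm := by
    constructor
    rintro e f ⟨h1, h2, h3, x, h4, y, h5, h6⟩
    exact ⟨h1.symm, h3, h2, y, h5, x, h4, Pool.Agent.W378.KF.bl_symm h6⟩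
  loopless := ⟨fun e h => h.1 rfl⟩

theorem far_deg {Γ : SimpleGraph V} {K : ℕ} (hK : ∀ v, (nb Γ v).card ≤ K) (t : ℕ) (e : Sym2 V) :
    (nb (far Γ t) e).card ≤ 2 * ((K + 1) ^ t * K) := by
  classical
  have hsub : nb (far Γ t) e ⊆ e.toFinset.biUnion fun x => (bl Γ x t).biUnion fun y =>
      (nb Γ y).image fun z => s(y, z) := by
    intro f hf
    obtain ⟨hne, h1, h2, x, h3, y, h4, h5⟩ := mem_nb.1 hf
    rw [Finset.mem_biUnion]
    refine ⟨x, Sym2.mem_toFinset.2 h3, ?_⟩
    rw [Finset.mem_biUnion]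
    refine ⟨y, h5, ?_⟩
    obtain ⟨z, rfl⟩ := h4
    rw [Finset.mem_image]
    exact ⟨z, mem_nb.2 ((SimpleGraph.mem_edgeSet Γ).1 h2), rfl⟩
  refine (Finset.card_le_card hsub).trans ?_
  refine (Finset.card_biUnion_le_card_mul _ _ ((K + 1) ^ t * K) fun x _ => ?_).trans
    (Nat.mul_le_mul_right _ ?_)
  · exact (Finset.card_biUnion_le_card_mul _ _ K fun y _ =>
      Finset.card_image_le.trans (hK y)).trans (Nat.mul_le_mul_right _ (ball_le hK x t))
  · rw [Sym2.card_toFinset]
    split_ifs <;> norm_num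

theorem bl_seq {Γ : SimpleGraph V} (w : ℕ → V) (k s : ℕ)
    (hadj : ∀ t < s, Γ.Adj (w (k + t)) (w (k + t + 1))) (t : ℕ) (ht : t ≤ s) :
    w (k + t) ∈ bl Γ (w k) t := by
  induction t with
  | zero => exact bl_zero.2 rfl
  | succ t ih =>
    rw [bl_succ]
    right
    exact ⟨w (k + t), ih (by omega), hadj t (by omega)⟩

/-- a long path has two consecutive vertices outside of `W` -/
theorem seg {Γ : SimpleGraph V} {s j : ℕ} {W : V → Prop} [DecidablePred W] (h4 : 4 * j < s)
    (hW : ∀ x, ((bl Γ x s).filter W).card ≤ 2 * j) (w : ℕ → V) (k : ℕ)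
    (hadj : ∀ t < s, Γ.Adj (w (k + t)) (w (k + t + 1)))
    (hinj : ∀ a b, a ≤ s → b ≤ s → w (k + a) = w (k + b) → a = b) :
    ∃ t, t < s ∧ ¬ W (w (k + t)) ∧ ¬ W (w (k + t + 1)) := by
  classical
  by_contra hcon
  push Not at hcon
  set Bad := (Finset.range (s + 1)).filter fun t => W (w (k + t)) with hBad
  have h1 : Bad.card ≤ 2 * j := by
    refine le_trans ?_ (hW (w k))
    refine Finset.card_le_card_of_injOn (fun t => w (k + t)) ?_ ?_
    · intro t ht
      rw [Finset.mem_coe, hBad, Finset.mem_filter, Finset.mem_range] at ht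
      rw [Finset.mem_coe, Finset.mem_filter]
      exact ⟨Pool.Agent.W378.KF.bl_mono _ (by omega : t ≤ s)
        (bl_seq w k s hadj t (by omega)), ht.2⟩
    · intro a ha b hb hab
      rw [Finset.mem_coe, hBad, Finset.mem_filter, Finset.mem_range] at ha hb
      exact hinj a b (by omega) (by omega) hab
  have h2 : Finset.range s ⊆ Bad ∪ Bad.image fun t => t - 1 := by
    intro t ht
    rw [Finset.mem_range] at ht
    rw [Finset.mem_union, Finset.mem_image]
    by_cases hw : W (w (k + t))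
    · left
      rw [hBad, Finset.mem_filter, Finset.mem_range]
      exact ⟨by omega, hw⟩
    · right
      refine ⟨t + 1, ?_, by omega⟩
      rw [hBad, Finset.mem_filter, Finset.mem_range]
      exact ⟨by omega, hcon t ht hw⟩
  have h3 := (Finset.card_le_card h2).trans (Finset.card_union_le _ _)
  have h5 : (Bad.image fun t => t - 1).card ≤ Bad.card := Finset.card_image_le
  rw [Finset.card_range] at h3
  omega

open Classical in
/-- the components are small -/
theorem comp_size {Γ C : SimpleGraph V} {s j : ℕ} {W : V → Prop} (h4 : 4 * j < s)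
    (hW : ∀ x, ((bl Γ x s).filter W).card ≤ 2 * j) (hC : C ≤ Γ) (hC2 : ∀ u, (nb C u).card ≤ 2)
    (L : ℕ) (v : V)
    (hL : ((univ : Finset (Sym2 V)).filter fun f => ∃ a b, f = s(a, b) ∧ C.Adj a b ∧
      (¬ W a ∧ ¬ W b) ∧ C.Reachable v a).card ≤ L) :
    (cmp C v).card ≤ 2 * (s * (L + 1)) + 1 := by
  set n := s * (L + 1) with hn
  have hemp : pths C v n = ∅ := by
    rw [Finset.eq_empty_iff_forall_notMem]
    intro w0 hw0
    obtain ⟨g0, g1, g2⟩ := mem_pths.1 hw0
    set w : ℕ → V := fun t => w0 ⟨min t n, by omega⟩ with hw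
    have hwt : ∀ t, ∀ ht : t ≤ n, w t = w0 ⟨t, by omega⟩ := by
      intro t ht
      rw [hw]
      simp only
      congr 1
      apply Fin.ext
      simp only
      omega
    have hadj : ∀ t, t < n → C.Adj (w t) (w (t + 1)) := by
      intro t ht
      rw [hwt t ht.le, hwt (t + 1) ht]
      exact g2 ⟨t, ht⟩
    have hinj : ∀ a b, a ≤ n → b ≤ n → w a = w b → a = b := by
      intro a b ha hb hab
      rw [hwt a ha, hwt b hb] at hab
      exact Fin.mk.inj (g1 hab)
    have hreach : ∀ t, t ≤ n → C.Reachable v (w t) := by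
      intro t
      induction t with
      | zero =>
        intro _
        have h1 := hwt 0 (Nat.zero_le _)
        have h2 : (⟨0, by omega⟩ : Fin (n + 1)) = 0 := rfl
        rw [h1, h2, g0]
      | succ t ih =>
        intro ht
        exact (ih (by omega)).trans (hadj t (by omega)).reachable
    have hseg : ∀ i : Fin (L + 1), ∃ t, t < s ∧ ¬ W (w (i.val * s + t)) ∧
        ¬ W (w (i.val * s + t + 1)) := by
      intro i
      have hi : i.val * s + s ≤ n := by
        have h1 : (i.val + 1) * s ≤ (L + 1) * s := Nat.mul_le_mul_right _ i.isLt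
        rw [hn]
        calc i.val * s + s = (i.val + 1) * s := by ring
          _ ≤ (L + 1) * s := h1
          _ = s * (L + 1) := by ring
      refine seg h4 hW w (i.val * s) (fun t ht => hC (hadj _ (by omega))) ?_
      intro a b ha hb hab
      have := hinj _ _ (by omega) (by omega) hab
      omega
    choose t ht1 ht2 ht3 using hseg
    have hlt : ∀ i : Fin (L + 1), i.val * s + t i < n := by
      intro i
      have h1 : (i.val + 1) * s ≤ (L + 1) * s := Nat.mul_le_mul_right _ i.isLt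
      have h2 := ht1 i
      rw [hn]
      calc i.val * s + t i < i.val * s + s := by omega
        _ = (i.val + 1) * s := by ring
        _ ≤ (L + 1) * s := h1
        _ = s * (L + 1) := by ring
    have hcard : (univ : Finset (Fin (L + 1))).card ≤
        ((univ : Finset (Sym2 V)).filter fun f => ∃ a b, f = s(a, b) ∧ C.Adj a b ∧
          (¬ W a ∧ ¬ W b) ∧ C.Reachable v a).card := by
      refine Finset.card_le_card_of_injOn
        (fun i => s(w (i.val * s + t i), w (i.val * s + t i + 1))) ?_ ?_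
      · intro i _
        rw [Finset.mem_coe, Finset.mem_filter]
        exact ⟨Finset.mem_univ _, _, _, rfl, hadj _ (hlt i), ⟨ht2 i, ht3 i⟩,
          hreach _ (hlt i).le⟩
      · intro i _ i' _ hii
        simp only at hii
        have h1 := hlt i
        have h2 := hlt i'
        have h3 : i.val * s + t i = i'.val * s + t i' := by
          rcases Sym2.eq_iff.1 hii with ⟨e1, _⟩ | ⟨e1, e2⟩
          · exact hinj _ _ h1.le h2.le e1
          · have k1 := hinj _ _ h1.le h2 e1
            have k2 := hinj _ _ h1 h2.le e2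
            omega
        apply Fin.ext
        have h5 := ht1 i
        have h6 := ht1 i'
        have hs0 : 0 < s := by omega
        have h7 : (i.val * s + t i) / s = i.val := by
          rw [Nat.mul_comm, Nat.mul_add_div hs0, Nat.div_eq_of_lt h5, Nat.add_zero]
        have h8 : (i'.val * s + t i') / s = i'.val := by
          rw [Nat.mul_comm, Nat.mul_add_div hs0, Nat.div_eq_of_lt h6, Nat.add_zero]
        rw [← h7, ← h8, h3]
    rw [Finset.card_univ, Fintype.card_fin] at hcard
    omega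
  refine (Finset.card_le_card ((Pool.Agent.W378.KF.t_grow _ C v n).1 hemp)).trans ?_
  exact Pool.Agent.W378.KF.t_ball _ C hC2 v n

/-- the vertex is on a removed edge -/
def used (R : SimpleGraph V) (v : V) : Prop := ∃ u, R.Adj v u

open Classical in
/-- the removed edges are a matching and there are few of them in every ball -/
def TInv (Γ : SimpleGraph V) (s j : ℕ) (R : SimpleGraph V) : Prop :=
  (∀ v, (nb R v).card ≤ 1) ∧ ∀ x, ((bl Γ x s).filter (used R)).card ≤ 2 * j

/-- edges with no end on a removed edge -/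
def fr (G R : SimpleGraph V) : SimpleGraph V where
  Adj u v := G.Adj u v ∧ ¬ used R u ∧ ¬ used R v
  symm := ⟨fun _ _ h => ⟨h.1.symm, h.2.2, h.2.1⟩⟩
  loopless := ⟨fun e h => G.loopless.irrefl e h.1⟩

theorem tinv_step {Γ R M : SimpleGraph V} {s j : ℕ} (hR : TInv Γ s j R)
    (hM : M ≤ fr (Γ \ R) R)
    (hM2 : ∀ u v u' v', M.Adj u v → M.Adj u' v' → ¬ (far Γ (2 * s)).Adj s(u, v) s(u', v')) :
    TInv Γ s (j + 1) (R ⊔ M) := by
  classical
  obtain ⟨h1, h2⟩ := hR
  have hMΓ : ∀ u v, M.Adj u v → Γ.Adj u v := fun u v h => (hM h).1.1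
  constructor
  · intro v
    by_cases hv : used R v
    · have h3 : nb M v = ∅ := by
        rw [Finset.eq_empty_iff_forall_notMem]
        intro u hu
        exact (hM (mem_nb.1 hu)).2.1 hv
      have h4 := nb_sup R M v
      have h5 := h1 v
      rw [h3, Finset.card_empty] at h4
      omega
    · have h3 : nb R v = ∅ := by
        rw [Finset.eq_empty_iff_forall_notMem]
        intro u hu
        exact hv ⟨u, mem_nb.1 hu⟩
      have h4 := nb_sup R M v
      rw [h3, Finset.card_empty] at h4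
      have h5 : (nb M v).card ≤ 1 := by
        rw [Finset.card_le_one]
        intro u hu u' hu'
        rw [mem_nb] at hu hu'
        by_contra hne
        refine hM2 v u v u' hu hu' ⟨fun h => hne ?_, hMΓ _ _ hu, hMΓ _ _ hu', v,
          Sym2.mem_mk_left _ _, v, Sym2.mem_mk_left _ _, Pool.Agent.W378.KF.bl_self _ _⟩
        exact Sym2.congr_right.1 h
      omega
  · intro x
    have hsub : (bl Γ x s).filter (used (R ⊔ M)) ⊆
        (bl Γ x s).filter (used R) ∪ (bl Γ x s).filter (used M) := by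
      intro v hv
      rw [Finset.mem_filter] at hv
      rw [Finset.mem_union, Finset.mem_filter, Finset.mem_filter]
      obtain ⟨hv1, u, hu⟩ := hv
      rcases hu with hu | hu
      · exact Or.inl ⟨hv1, u, hu⟩
      · exact Or.inr ⟨hv1, u, hu⟩
    have h3 : ((bl Γ x s).filter (used M)).card ≤ 2 := by
      rcases ((bl Γ x s).filter (used M)).eq_empty_or_nonempty with h0 | ⟨y0, hy0⟩
      · rw [h0]
        simp
      · obtain ⟨hy1, u0, hu0⟩ := Finset.mem_filter.1 hy0
        have hsub2 : (bl Γ x s).filter (used M) ⊆ {y0, u0} := by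
          intro y1 hy
          obtain ⟨hy2, u, hu⟩ := Finset.mem_filter.1 hy
          have h5 := Pool.Agent.W378.KF.t_bmeet V Γ y0 y1 x s
            (Pool.Agent.W378.KF.bl_symm hy1) (Pool.Agent.W378.KF.bl_symm hy2)
          have h6 := hM2 y0 u0 y1 u hu0 hu
          have h7 : s(y0, u0) = s(y1, u) := by
            by_contra hne
            exact h6 ⟨hne, hMΓ _ _ hu0, hMΓ _ _ hu, y0, Sym2.mem_mk_left _ _, y1,
              Sym2.mem_mk_left _ _, h5⟩
          rw [Finset.mem_insert, Finset.mem_singleton]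
          rcases Sym2.eq_iff.1 h7 with ⟨e1, _⟩ | ⟨_, e2⟩
          · exact Or.inl e1.symm
          · exact Or.inr e2.symm
        exact (Finset.card_le_card hsub2).trans Finset.card_le_two
    have h4 := (Finset.card_le_card hsub).trans (Finset.card_union_le _ _)
    have h5 := h2 x
    have h6 : ((bl Γ x s).filter (used (R ⊔ M))).card ≤ 2 * (j + 1) := by omega
    convert h6

/-- **One level of the first kind.** -/
theorem t_step {Γ : SimpleGraph V} {c : V → V → ℕ} {K o b m q : ℕ} (hK : 1 ≤ K) (hb : 1 ≤ b)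
    (hΓ : ∀ v, (nb Γ v).card ≤ K)
    {y : Fin q → V → V → ℕ} {j : ℕ} (hj : j < m)
    {R : SimpleGraph V} {c1 : V → V → ℕ} {φ Λ : ℝ} (hφ0 : 0 < φ) (hΛ : 0 < Λ) (s d l : ℕ)
    (hs : 4 * j < s) (hd : 2 * ((K + 1) ^ (2 * s) * K) ≤ d) (hl : l + 1 = 128 * (d + 1) ^ 4)
    (h4 : 4 * Real.exp (-Λ) * ((K * (2 * (s * (2 * l + 2)) + 1) : ℕ) : ℝ) ≤ 1)
    (hR : TInv Γ s j R)
    (h : St Γ c K o b m y j R c1 φ) :
    Stp Γ o b m y j R c1 (φ / 2 + √(q * φ * Λ)) (TInv Γ s (j + 1)) := by
  classical
  obtain ⟨hRΓ, hcol, hc1K, hun, hin, hsum⟩ := h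
  have hsg := Pool.Agent.W853.KF.t_sg.1 o b m j hb hj
  have hinv : ∀ x, sg o b m j (sg o b m j x) = x := fun x => (hsg x).1
  set G := Γ \ R with hG
  have hGΓ : G ≤ Γ := sdiff_le
  have hHGG : fr G R ≤ G := fun u v h => h.1
  obtain ⟨M, hM1, hM2, hM3⟩ := hot_cut G (fr G R) c1 (sg o b m j) d l hl hHGG hcol hinv
    (far Γ (2 * s)) (fun e => (far_deg hΓ (2 * s) e).trans hd)
  have hMG : M ≤ G := hM1.trans hHGG
  have hle : G \ M ≤ G := sdiff_le
  have hcol' : Col (G \ M) c1 :=
    ⟨hcol.1, fun u v w huv huw hne => hcol.2 u v w (hle huv) (hle huw) hne⟩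
  have hkey : ∀ u v, (G \ M).Adj u v → key (sg o b m j) (c1 u v) < K := fun u v h =>
    lt_of_le_of_lt (min_le_left _ _) (hc1K u v (hle h))
  have hcmp : ∀ (P : ℕ) (v : V), (cmp (cls (G \ M) c1 (sg o b m j) P) v).card ≤
      2 * (s * (2 * l + 2)) + 1 := by
    intro P v
    have hW : ∀ x, ((bl Γ x s).filter (used R)).card ≤ 2 * j := by
      intro x
      have := hR.2 x
      convert this
    refine comp_size (Γ := Γ) (C := cls (G \ M) c1 (sg o b m j) P) (W := used R) hs hW
      (fun u v h => hGΓ (hle h.1)) (Pool.Agent.W215.KF.t_cls V (G \ M) c1 (sg o b m j) hcol' hinv P)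
      (2 * l + 1) v ?_
    refine le_trans (Finset.card_le_card ?_) (hM3 P v)
    intro f hf
    obtain ⟨a, b', g1, g2, g3, g4⟩ := (Finset.mem_filter.1 hf).2
    rw [mem_hc]
    exact ⟨a, b', g1, g2, ⟨hle g2.1, g3⟩, g4⟩
  obtain ⟨bb, hb1, hb2, hb3⟩ := Pool.Agent.W613.KF.t_flip Pool.Agent.W215.KF.t_cls
    Pool.Agent.W177.KF.t_hoef V (G \ M) c1 (sg o b m j) K (2 * (s * (2 * l + 2)) + 1) q φ
    Λ (fun v u β => aw o b m j y c1 v u β) hcol' hinv hkey hcmp
    (fun v u => (aw_le hb hj y c1 v u).trans (Pool.Agent.W372.KF.alv_card_le y _ v u))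
    (by
      intro v
      refine le_trans (Finset.sum_le_sum fun u _ => ?_) ((Finset.sum_le_sum_of_subset_of_nonneg
        (Pool.Agent.W372.KF.nb_mono hle v) fun _ _ _ => Nat.cast_nonneg _).trans (hsum v))
      exact_mod_cast aw_le hb hj y c1 v u) hφ0 hΛ hK (by omega) h4
  exact ⟨M, bb, hMG, tinv_step hR hM1 hM2,
    Pool.Agent.W215.KF.t_kempe V (G \ M) c1 (sg o b m j) bb hcol' hinv hb1 hb2, hb3⟩

end Pool.Agent.K1H87.KF
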