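import Mathlib
import Pool.Agent.K1H87.KF.TStep
import Pool.Agent.K1H87.KF.BStep

set_option autoImplicit false

/-!
# One phase: levels of the first kind, then levels of the second kind
-/

namespace Pool.Agent.K1H87.KF

open Finset Pool.Agent.W842.KF

variable {V : Type} [Fintype V]

theorem St.mono {Γ : SimpleGraph V} {c : V → V → ℕ} {K o b m q : ℕ} {y : Fin q → V → V → ℕ}
    {j : ℕ} {R : SimpleGraph V} {c1 : V → V → ℕ} {φ ψ : ℝ} (h : St Γ c K o b m y j R c1 φ)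
    (hφ : φ ≤ ψ) : St Γ c K o b m y j R c1 ψ := by
  obtain ⟨h1, h2, h3, h4, h5, h6⟩ := h
  exact ⟨h1, h2, h3, h4, h5, fun v => (h6 v).trans hφ⟩

theorem st_zero {Γ : SimpleGraph V} {c : V → V → ℕ} {K o b m q : ℕ} {y : Fin q → V → V → ℕ}
    (hc : Col Γ c) (hd : ∀ v, (nb Γ v).card ≤ K) (hcK : ∀ u v, Γ.Adj u v → c u v < K) :
    St Γ c K o b m y 0 ⊥ c (q * K) := by
  refine ⟨bot_le, ?_, ?_, ?_, ?_, ?_⟩
  · rwa [sdiff_bot]
  · rw [sdiff_bot]
    exact hcK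
  · intro u v _ _
    rfl
  · intro u v _ h
    exact h
  · intro v
    rw [sdiff_bot]
    calc ∑ u ∈ nb Γ v, ((alv o b m 0 y (c v u) v u).card : ℝ)
        ≤ ∑ u ∈ nb Γ v, (q : ℝ) := by
          refine Finset.sum_le_sum fun u _ => ?_
          exact_mod_cast Pool.Agent.W372.KF.alv_card_le y (c v u) v u
      _ = (nb Γ v).card * (q : ℝ) := by rw [Finset.sum_const, nsmul_eq_mul]
      _ ≤ (K : ℝ) * q := by
          have : ((nb Γ v).card : ℝ) ≤ (K : ℝ) := by exact_mod_cast hd v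
          exact mul_le_mul_of_nonneg_right this (by positivity)
      _ = q * K := mul_comm _ _

theorem tinv_zero (Γ : SimpleGraph V) (s : ℕ) : TInv Γ s 0 ⊥ := by
  classical
  constructor
  · intro v
    have : nb (⊥ : SimpleGraph V) v = ∅ := by
      ext u
      rw [mem_nb]
      simp
    rw [this]
    simp
  · intro x
    have h1 : ((bl Γ x s).filter (used (⊥ : SimpleGraph V))) = ∅ := by
      rw [Finset.filter_eq_empty_iff]
      rintro v _ ⟨u, hu⟩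
      exact hu
    have h2 : ((bl Γ x s).filter (used (⊥ : SimpleGraph V))).card ≤ 2 * 0 := by
      rw [h1]
      simp
    convert h2

/-- **One phase.** -/
theorem phase2 {Γ : SimpleGraph V} {c : V → V → ℕ} {K o b m q : ℕ} {y : Fin q → V → V → ℕ}
    (hK : 1 ≤ K) (hq : 1 ≤ q) (hb : 1 ≤ b) (hobm : o + 2 ^ m * b ≤ K) (hy : SymT y)
    (hc : Col Γ c) (hd : ∀ v, (nb Γ v).card ≤ K) (hcK : ∀ u v, Γ.Adj u v → c u v < K)
    (nB dT lT A lB : ℕ) (ΛT ΛB A1 : ℝ) (hΛT : 0 < ΛT) (hΛB : 0 < ΛB)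
    (hdT : 2 * ((K + 1) ^ (2 * (4 * m)) * K) ≤ dT) (hlT : lT + 1 = 128 * (dT + 1) ^ 4)
    (h4T : 4 * Real.exp (-ΛT) * ((K * (2 * ((4 * m) * (2 * lT + 2)) + 1) : ℕ) : ℝ) ≤ 1)
    (hlB : lB + 1 = 128 * (2 * A + 1) ^ 4)
    (h4B : 4 * Real.exp (-ΛB) * ((A * ((2 * lB + 1) * 2) : ℕ) : ℝ) ≤ 1)
    (hA1 : m ≤ nB → (q : ℝ) * K ≤ A1)
    (hA2 : nB < m → 2 * ((q : ℝ) * K) / 2 ^ (m - nB) + 12 * q * ΛT ≤ A1)
    (hA : 2 * A1 + 12 * q * ΛB ≤ A) :
    ∃ R c', (∀ v, (nb R v).card ≤ 1 + nB) ∧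
      St Γ c K o b m y m R c' (2 * A1 / 2 ^ (min m nB) + 12 * q * ΛB) := by
  have hqR : (1 : ℝ) ≤ q := by exact_mod_cast hq
  have hKR : (1 : ℝ) ≤ K := by exact_mod_cast hK
  have hqK : (0 : ℝ) < q * K := by positivity
  -- the state before the levels of the second kind
  obtain ⟨R1, c1, hR1, hS1⟩ : ∃ R1 c1, (∀ v, (nb R1 v).card ≤ 1) ∧
      St Γ c K o b m y (m - min m nB) R1 c1 A1 := by
    rcases Nat.lt_or_ge nB m with hlt | hge
    · obtain ⟨R1, c1, h1, h2⟩ := run (Γ := Γ) (c := c) hb hobm (y := y)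
        (fun i R => TInv Γ (4 * m) i R) 0 (m - nB) (by omega) (q * K) ΛT hqK hΛT.le
        (by
          intro i R c1 φ hi hI hφ0 _ hS
          rw [Nat.zero_add] at hS ⊢
          exact t_step hK hb hd (by omega) hφ0 hΛT (4 * m) dT lT (by omega) hdT hlT h4T hI hS)
        ⊥ c (tinv_zero Γ _) (st_zero hc hd hcK)
      refine ⟨R1, c1, h1.1, ?_⟩
      rw [Nat.zero_add] at h2
      rw [Nat.min_eq_right hlt.le]
      exact h2.mono (hA2 hlt)
    · refine ⟨⊥, c, fun v => ?_, ?_⟩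
      · exact ((tinv_zero Γ 0).1 v)
      · rw [Nat.min_eq_left hge, Nat.sub_self]
        exact (st_zero hc hd hcK).mono (hA1 hge)
  have hA1pos : 0 < A1 := by
    rcases Nat.lt_or_ge nB m with hlt | hge
    · refine lt_of_lt_of_le ?_ (hA2 hlt)
      positivity
    · exact lt_of_lt_of_le hqK (hA1 hge)
  have hApos : 1 ≤ A := by
    by_contra h
    have h0 : A = 0 := by omega
    rw [h0] at hA
    have : (0 : ℝ) < 12 * q * ΛB := by positivity
    simp only [Nat.cast_zero] at hA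
    linarith
  obtain ⟨R, c', h1, h2⟩ := run (Γ := Γ) (c := c) hb hobm (y := y)
    (fun i R => ∀ v, (nb R v).card ≤ 1 + i) (m - min m nB) (min m nB) (by omega) A1 ΛB hA1pos
    hΛB.le
    (by
      intro i R c1 φ hi hI hφ0 hφ hS
      exact b_step hK hb hy (by omega) hφ0 hΛB A lB (1 + i) hApos (hφ.trans hA) hlB h4B hI hS)
    R1 c1 hR1 hS1
  refine ⟨R, c', fun v => (h1 v).trans (by omega), ?_⟩
  have h3 : m - min m nB + min m nB = m := by omega
  rw [h3] at h2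
  exact h2

end Pool.Agent.K1H87.KF
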