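import Mathlib
import Pool.Agent.K1H87.KF.Phase2
import Pool.Agent.W319.KF.Edge
import Pool.Agent.W583.KF.Lab

set_option autoImplicit false

/-!
# From the phases to the labelling
-/

namespace Pool.Agent.K1H87.KF

open Finset Pool.Agent.W842.KF

/-- one phase is possible with at most `r` removed edges at every vertex and at most `X` tests
alive at the end -/
def PH (K q b m : ℕ) (r : ℕ) (X : ℝ) : Prop :=
  ∀ (V : Type) [Fintype V] (Γ : SimpleGraph V) (c : V → V → ℕ) (o : ℕ) (y : Fin q → V → V → ℕ),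
    o + 2 ^ m * b ≤ K → SymT y → Col Γ c → (∀ v, (nb Γ v).card ≤ K) →
    (∀ u v, Γ.Adj u v → c u v < K) →
    ∃ R c', (∀ v, (nb R v).card ≤ r) ∧ St Γ c K o b m y m R c' X

theorem edge2 {V : Type} [Fintype V] (Γ : SimpleGraph V) (c : V → V → ℕ) (K q d m b r : ℕ)
    (X : ℝ) (y : Fin q → V → V → ℕ) (hd : 1 ≤ d) (hm1 : 2 ^ m * d ≤ K) (hb : b = K / 2 ^ m)
    (hP : PH K q b m r X) (hy : SymT y)
    (hc : Col Γ c) (hdeg : ∀ v, (nb Γ v).card ≤ K) (hcol : ∀ u v, Γ.Adj u v → c u v < K) :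
    ∃ (R : SimpleGraph V) (c' : V → V → ℕ), R ≤ Γ ∧
      (∀ v, (nb R v).card ≤ 2 * r) ∧
      Col (Γ \ R) c' ∧ (∀ u v, (Γ \ R).Adj u v → c' u v < K) ∧
      ∀ v, ∃ B : Finset V, (B.card : ℝ) ≤ 2 * X ∧
        ∀ u ∈ nb (Γ \ R) v, u ∉ B →
          ∃ α b : ℕ, d ≤ b ∧ α ≤ c' v u ∧ c' v u < α + b ∧
            ∀ i, ¬ (α ≤ y i v u ∧ y i v u < α + b) := by
  classical
  have h2m : 1 ≤ 2 ^ m := Nat.one_le_two_pow
  have hbd : d ≤ b := by
    rw [hb, Nat.le_div_iff_mul_le (by omega), mul_comm]; exact hm1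
  have hb1 : 1 ≤ b := by omega
  have hbK : 2 ^ m * b ≤ K := by
    rw [hb]
    exact Nat.mul_div_le K (2 ^ m)
  obtain ⟨R1, c1, hR1c, hR1, hcol1, hK1, hout1, hin1, hsum1⟩ :=
    hP V Γ c 0 y (by omega) hy hc hdeg hcol
  set o := K - 2 ^ m * b with ho
  have ho1 : o < 2 ^ m := by
    have : o = K % 2 ^ m := by
      have h := Nat.div_add_mod K (2 ^ m)
      rw [← hb] at h
      rw [ho]
      exact Nat.sub_eq_of_eq_add (by rw [add_comm]; exact h.symm)
    rw [this]; exact Nat.mod_lt _ (by omega)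
  have hdeg1 : ∀ v, (nb (Γ \ R1) v).card ≤ K := fun v =>
    (Pool.Agent.W319.KF.nb_mono sdiff_le v).trans (hdeg v)
  obtain ⟨R2, c2, hR2c, hR2, hcol2, hK2, hout2, hin2, hsum2⟩ :=
    hP V (Γ \ R1) c1 o y (by omega) hy hcol1 hdeg1 hK1
  have hsd : (Γ \ R1) \ R2 = Γ \ (R1 ⊔ R2) := sdiff_sdiff_left
  rw [hsd] at hcol2 hK2 hout2 hin2 hsum2
  refine ⟨R1 ⊔ R2, c2, sup_le hR1 (hR2.trans sdiff_le), ?_, hcol2, hK2, ?_⟩
  · intro v
    have h1 := nb_sup R1 R2 v
    have h2 := hR1c v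
    have h3 := hR2c v
    omega
  · intro v
    refine ⟨((nb (Γ \ (R1 ⊔ R2)) v).filter fun u => (alv 0 b m m y (c1 v u) v u).card ≠ 0) ∪
      ((nb (Γ \ (R1 ⊔ R2)) v).filter fun u => (alv o b m m y (c2 v u) v u).card ≠ 0), ?_, ?_⟩
    · have h1 := Pool.Agent.W319.KF.card_le (H := Γ \ (R1 ⊔ R2)) (H' := Γ \ R1)
        (sdiff_le_sdiff_left le_sup_left) v (fun u => (alv 0 b m m y (c1 v u) v u).card) _ (hsum1 v)
      have h2 := Pool.Agent.W319.KF.card_le (H := Γ \ (R1 ⊔ R2)) (H' := Γ \ (R1 ⊔ R2)) le_rfl v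
        (fun u => (alv o b m m y (c2 v u) v u).card) _ (hsum2 v)
      have h3 := Finset.card_union_le
        ((nb (Γ \ (R1 ⊔ R2)) v).filter fun u => (alv 0 b m m y (c1 v u) v u).card ≠ 0)
        ((nb (Γ \ (R1 ⊔ R2)) v).filter fun u => (alv o b m m y (c2 v u) v u).card ≠ 0)
      rw [← Nat.cast_le (α := ℝ)] at h3
      push_cast at h3
      linarith
    · intro u hu huB
      rw [Finset.mem_union, Finset.mem_filter, Finset.mem_filter] at huB
      push Not at huB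
      obtain ⟨hB1, hB2⟩ := huB
      have ha1 := Finset.card_eq_zero.1 (hB1 hu)
      have ha2 := Finset.card_eq_zero.1 (hB2 hu)
      rw [mem_nb] at hu
      by_cases h : inT o b m (c2 v u)
      · obtain ⟨α, g1, g2, g3⟩ := Pool.Agent.W319.KF.block hb1 h y v u ha2
        exact ⟨α, b, hbd, g1, g2, g3⟩
      · have h1 : ¬ inT o b m (c1 v u) := fun h' => h (hin2 v u hu h')
        have h2 := hout2 v u hu h1
        have h3 := hK2 v u hu
        have h4 : c2 v u < o := by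
          by_contra hcon
          apply h
          exact ⟨by omega, by omega⟩
        have h5 : 2 ^ m ≤ 2 ^ m * b := Nat.le_mul_of_pos_right _ (by omega)
        have h6 : inT 0 b m (c1 v u) := ⟨Nat.zero_le _, by omega⟩
        obtain ⟨α, g1, g2, g3⟩ := Pool.Agent.W319.KF.block hb1 h6 y v u ha1
        rw [h2]
        exact ⟨α, b, hbd, g1, g2, g3⟩

open Pool.Agent.W583.KFLab in
/-- **The labelling.** -/
theorem lab2 {V : Type} [Fintype V] (G : SimpleGraph V) [DecidableRel G.Adj] (p m r : ℕ) (X : ℝ)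
    (hp : 1 ≤ p) (hm1 : 2 ^ m * (2 * p - 1) ≤ G.maxDegree + 1)
    (hX : 0 ≤ X) (hP : PH (G.maxDegree + 1) 4 ((G.maxDegree + 1) / 2 ^ m) m r X) :
    ∃ N : ℕ, (N : ℝ) ≤ G.maxDegree + 2 * p + 2 * r + 2 * X ∧
      Pool.Agent.H238R2.HY.CircLab G p N := by
  classical
  set D := G.maxDegree with hD
  obtain ⟨c, hc1, hc2, hc3⟩ := Pool.Agent.H238R2.HY.vizing G D (fun v => G.degree_le_maxDegree v)
  obtain ⟨s, hs1, hs2⟩ := Pool.Agent.H238R2.HY.greedy G D (fun v => G.degree_le_maxDegree v)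
  let y : Fin 4 → V → V → ℕ := fun i v u =>
    ![s v - (p - 1), s v + (p - 1), s u - (p - 1), s u + (p - 1)] i
  have hy : SymT y := by
    intro i v u
    refine ⟨i + 2, ?_⟩
    fin_cases i <;> rfl
  obtain ⟨R, c1, hR, hR1, hcol, hlt, hB⟩ := edge2 G c (D + 1) 4 (2 * p - 1) m _ r X y
    (by omega) hm1 rfl hP hy ⟨hc1, hc3⟩ (fun v => by
      rw [card_nb]
      exact (G.degree_le_maxDegree v).trans (Nat.le_succ _))
    (fun u v h => Nat.lt_succ_of_le (hc2 u v h))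
  choose B hB1 hB2 using hB
  set C := bad G R c1 s p hcol.1 with hC
  have hCB : ∀ v, nb C v ⊆ B v := by
    intro v u hu
    rw [mem_nb] at hu
    by_contra hnot
    obtain ⟨α, b, h1, h2, h3, h4⟩ := hB2 v u (mem_nb.2 hu.1) hnot
    have e0 := h4 0
    have e1 := h4 1
    have e2 := h4 2
    have e3 := h4 3
    simp only [y, Matrix.cons_val] at e0 e1 e2 e3
    rcases hu.2 with h5 | h5
    · exact away hp h1 h2 h3 e0 e1 h5
    · exact away hp h1 h2 h3 e2 e3 h5
  have hpr : (1 : ℝ) ≤ p := by exact_mod_cast hp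
  set w := ⌊2 * (r : ℝ) + 2 * X⌋₊ with hw
  have hw0 : (0 : ℝ) ≤ 2 * (r : ℝ) + 2 * X := by positivity
  set Γ := R ⊔ C with hΓ
  have hdeg : ∀ v, Γ.degree v ≤ w := by
    intro v
    rw [hw, Nat.le_floor_iff hw0, ← card_nb]
    have h1 : nb Γ v ⊆ nb R v ∪ B v := by
      intro u hu
      rw [mem_nb, hΓ, SimpleGraph.sup_adj] at hu
      rw [mem_union]
      rcases hu with hu | hu
      · exact Or.inl (mem_nb.2 hu)
      · exact Or.inr (hCB v (mem_nb.2 hu))
    have h2 : ((nb Γ v).card : ℝ) ≤ (nb R v).card + (B v).card := by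
      exact_mod_cast (card_le_card h1).trans (card_union_le _ _)
    have h3 : ((nb R v).card : ℝ) ≤ 2 * r := by exact_mod_cast hR1 v
    have h4 := hB1 v
    linarith
  obtain ⟨c2, hv1, hv2, hv3⟩ := Pool.Agent.H238R2.HY.vizing Γ w hdeg
  let eL : V → V → ℕ := fun u v => if Γ.Adj u v then D + p + c2 u v else c1 u v
  have hsymm : ∀ u v, eL u v = eL v u := by
    intro u v
    simp only [eL]
    by_cases h : Γ.Adj u v
    · rw [if_pos h, if_pos h.symm, hv1 u v]
    · rw [if_neg h, if_neg fun h' => h h'.symm, hcol.1 u v]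
  let fE : Sym2 V → ℕ := fun e => Sym2.lift ⟨eL, hsymm⟩ e
  have hfE : ∀ u v, fE s(u, v) = eL u v := fun u v => Sym2.lift_mk _ _ _
  have hold : ∀ u v, G.Adj u v → ¬ Γ.Adj u v → (G \ R).Adj u v ∧ eL u v = c1 u v ∧
      c1 u v ≤ D := by
    intro u v h1 h2
    have h3 : (G \ R).Adj u v := by
      rw [SimpleGraph.sdiff_adj]
      exact ⟨h1, fun h => h2 (by rw [hΓ, SimpleGraph.sup_adj]; exact Or.inl h)⟩
    refine ⟨h3, ?_, ?_⟩
    · simp only [eL]
      rw [if_neg h2]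
    · exact Nat.le_of_lt_succ (hlt u v h3)
  have hnew : ∀ u v, Γ.Adj u v → eL u v = D + p + c2 u v ∧ c2 u v ≤ w := by
    intro u v h
    refine ⟨?_, hv2 u v h⟩
    simp only [eL]
    rw [if_pos h]
  refine ⟨D + 2 * p + w, ?_, s, fE, ?_, ?_, ?_, ?_, ?_⟩
  · have h1 : (w : ℝ) ≤ 2 * (r : ℝ) + 2 * X := Nat.floor_le hw0
    push_cast
    linarith
  · intro v
    have := hs1 v
    omega
  · intro e he
    induction e using Sym2.ind with
    | _ u v =>
      rw [SimpleGraph.mem_edgeSet] at he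
      rw [hfE]
      by_cases h : Γ.Adj u v
      · obtain ⟨h1, h2⟩ := hnew u v h
        omega
      · obtain ⟨_, h1, h2⟩ := hold u v he h
        omega
  · exact hs2
  · intro u v v' h1 h2 hne h
    rw [hfE, hfE] at h
    by_cases g1 : Γ.Adj u v
    · obtain ⟨a1, a2⟩ := hnew u v g1
      by_cases g2 : Γ.Adj u v'
      · obtain ⟨b1, b2⟩ := hnew u v' g2
        exact hv3 u v v' g1 g2 hne (by omega)
      · obtain ⟨_, b1, b2⟩ := hold u v' h2 g2
        omega
    · obtain ⟨a0, a1, a2⟩ := hold u v h1 g1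
      by_cases g2 : Γ.Adj u v'
      · obtain ⟨b1, b2⟩ := hnew u v' g2
        omega
      · obtain ⟨b0, b1, b2⟩ := hold u v' h2 g2
        exact hcol.2 u v v' a0 b0 hne (by omega)
  · intro u v h1
    rw [hfE]
    have hsu := hs1 u
    by_cases g1 : Γ.Adj u v
    · obtain ⟨a1, a2⟩ := hnew u v g1
      rw [a1]
      push_cast
      rw [abs_of_nonpos (by omega)]
      constructor
      · omega
      · omega
    · obtain ⟨a0, a1, a2⟩ := hold u v h1 g1
      rw [a1]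
      have h3 : ¬ |(c1 u v : ℤ) - s u| < p := by
        intro h
        apply g1
        rw [hΓ, SimpleGraph.sup_adj]
        exact Or.inr ⟨a0, Or.inl h⟩
      rw [abs_sub_comm] at h3
      refine ⟨not_lt.1 h3, ?_⟩
      rw [abs_le]
      push_cast
      constructor
      · omega
      · omega

end Pool.Agent.K1H87.KF
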