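import Mathlib
import Pool.Agent.K1H87.KF.EdgeLab

set_option autoImplicit false

/-!
# The choice of the parameters
-/

namespace Pool.Agent.K1H87.KF

open Finset Pool.Agent.W842.KF

theorem numT_nat (K m : ℕ) (hK : 64 ≤ K) (hm : m ≤ K) :
    4 * (K * (2 * ((4 * m) * (256 * (2 * ((K + 1) ^ (2 * (4 * m)) * K) + 1) ^ 4)) + 1)) ≤
      (K + 1) ^ (32 * m + 13) := by
  set T := (K + 1) ^ (2 * (4 * m)) with hT
  have hT1 : 1 ≤ T := Nat.one_le_pow _ _ (by omega)
  set D1 := 2 * (T * K) + 1 with hD1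
  have h1 : D1 ≤ T * (K + 1) ^ 2 := by
    have : T * (K + 1) ^ 2 = T * K ^ 2 + 2 * (T * K) + T := by ring
    rw [this, hD1]
    have : 0 ≤ T * K ^ 2 := Nat.zero_le _
    omega
  have h2 : D1 ^ 4 ≤ (K + 1) ^ (32 * m + 8) := by
    refine (Nat.pow_le_pow_left h1 4).trans (le_of_eq ?_)
    rw [hT, mul_pow, ← pow_mul, ← pow_mul, ← pow_add]
    congr 1
    ring
  have h3 : 1 ≤ D1 ^ 4 := Nat.one_le_pow _ _ (by omega)
  have h4 : 8196 ≤ (K + 1) ^ 3 := by
    have : 65 ^ 3 ≤ (K + 1) ^ 3 := Nat.pow_le_pow_left (by omega) 3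
    omega
  calc 4 * (K * (2 * ((4 * m) * (256 * D1 ^ 4)) + 1))
      = K * (8192 * (m * D1 ^ 4) + 4) := by ring
    _ ≤ K * (8192 * (K * D1 ^ 4) + 4 * (K * D1 ^ 4)) := by
        apply Nat.mul_le_mul_left
        have h5 : m * D1 ^ 4 ≤ K * D1 ^ 4 := Nat.mul_le_mul_right _ hm
        have h6 : 1 ≤ K * D1 ^ 4 := Nat.mul_pos (by omega) h3
        omega
    _ = 8196 * (K * K) * D1 ^ 4 := by ring
    _ ≤ (K + 1) ^ 3 * ((K + 1) * (K + 1)) * (K + 1) ^ (32 * m + 8) := by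
        apply Nat.mul_le_mul _ h2
        apply Nat.mul_le_mul h4
        exact Nat.mul_le_mul (by omega) (by omega)
    _ = (K + 1) ^ (32 * m + 13) := by ring

theorem numT (K m : ℕ) (hK : 64 ≤ K) (hm : 2 ^ m ≤ K) :
    4 * Real.exp (-(64 * Real.log (K + 1) ^ 2)) *
      ((K * (2 * ((4 * m) * (256 * (2 * ((K + 1) ^ (2 * (4 * m)) * K) + 1) ^ 4)) + 1) : ℕ) : ℝ)
        ≤ 1 := by
  have hKR : (64 : ℝ) ≤ K := by exact_mod_cast hK
  set X := Real.log ((K : ℝ) + 1) with hX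
  have hmK : m ≤ K := (Nat.lt_two_pow_self).le.trans hm
  have h1 := numT_nat K m hK hmK
  have h2 : (4 : ℝ) * ((K * (2 * ((4 * m) * (256 * (2 * ((K + 1) ^ (2 * (4 * m)) * K) + 1) ^ 4)) + 1)
      : ℕ) : ℝ) ≤ ((K : ℝ) + 1) ^ (32 * m + 13) := by
    exact_mod_cast h1
  have hX1 : 1 ≤ X := by
    rw [hX, Real.le_log_iff_exp_le (by positivity)]
    have := Real.exp_one_lt_d9
    linarith
  have h3 : ((K : ℝ) + 1) ^ (32 * m + 13) ≤ Real.exp (64 * X ^ 2) := by
    have h4 : ((K : ℝ) + 1) = Real.exp X := (Real.exp_log (by positivity)).symm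
    rw [h4, ← Real.exp_nat_mul]
    apply Real.exp_le_exp.2
    have h5 : (m : ℝ) * Real.log 2 ≤ X := by
      rw [← Real.log_pow, hX]
      apply Real.log_le_log (by positivity)
      have : ((2 : ℝ) ^ m) ≤ K := by exact_mod_cast hm
      linarith
    have h6 := Real.log_two_gt_d9
    have h7 : (m : ℝ) ≤ 1.45 * X := by nlinarith
    push_cast
    nlinarith
  calc 4 * Real.exp (-(64 * X ^ 2)) *
      ((K * (2 * ((4 * m) * (256 * (2 * ((K + 1) ^ (2 * (4 * m)) * K) + 1) ^ 4)) + 1) : ℕ) : ℝ)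
      = Real.exp (-(64 * X ^ 2)) * (4 * ((K * (2 * ((4 * m) *
        (256 * (2 * ((K + 1) ^ (2 * (4 * m)) * K) + 1) ^ 4)) + 1) : ℕ) : ℝ)) := by ring
    _ ≤ Real.exp (-(64 * X ^ 2)) * Real.exp (64 * X ^ 2) :=
        mul_le_mul_of_nonneg_left (h2.trans h3) (Real.exp_pos _).le
    _ = 1 := by rw [← Real.exp_add]; simp

theorem numB (A : ℕ) (hA : 1 ≤ A) (lB : ℕ) (hlB : lB + 1 = 128 * (2 * A + 1) ^ 4) :
    4 * Real.exp (-(8 + 5 * Real.log (2 * A + 1))) * ((A * ((2 * lB + 1) * 2) : ℕ) : ℝ) ≤ 1 := by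
  have h1 : 4 * (A * ((2 * lB + 1) * 2)) ≤ 1024 * (2 * A + 1) ^ 5 := by
    have h2 : (2 * lB + 1) * 2 ≤ 512 * (2 * A + 1) ^ 4 := by omega
    calc 4 * (A * ((2 * lB + 1) * 2)) ≤ 4 * (A * (512 * (2 * A + 1) ^ 4)) := by gcongr
      _ = 1024 * ((2 * A) * (2 * A + 1) ^ 4) := by ring
      _ ≤ 1024 * ((2 * A + 1) * (2 * A + 1) ^ 4) := by
          gcongr
          omega
      _ = 1024 * (2 * A + 1) ^ 5 := by ring
  have h2 : (4 : ℝ) * ((A * ((2 * lB + 1) * 2) : ℕ) : ℝ) ≤ 1024 * (2 * (A : ℝ) + 1) ^ 5 := by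
    exact_mod_cast h1
  have h3 : (2 * (A : ℝ) + 1) ^ 5 = Real.exp (5 * Real.log (2 * A + 1)) := by
    rw [show (5 : ℝ) * Real.log (2 * A + 1) = ((5 : ℕ) : ℝ) * Real.log (2 * A + 1) by norm_num,
      Real.exp_nat_mul, Real.exp_log (by positivity)]
  have h4 : (1024 : ℝ) ≤ Real.exp 8 := by
    have h5 : (2.4 : ℝ) ≤ Real.exp 1 := by
      have := Real.exp_one_gt_d9
      linarith
    have h6 := pow_le_pow_left₀ (by norm_num : (0 : ℝ) ≤ 2.4) h5 8
    rw [← Real.exp_nat_mul] at h6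
    have h7 : ((8 : ℕ) : ℝ) * 1 = 8 := by norm_num
    rw [h7] at h6
    refine le_trans ?_ h6
    norm_num
  have hE := Real.exp_pos (5 * Real.log (2 * (A : ℝ) + 1))
  calc 4 * Real.exp (-(8 + 5 * Real.log (2 * A + 1))) * ((A * ((2 * lB + 1) * 2) : ℕ) : ℝ)
      = Real.exp (-(8 + 5 * Real.log (2 * A + 1))) * (4 * ((A * ((2 * lB + 1) * 2) : ℕ) : ℝ)) := by
        ring
    _ ≤ Real.exp (-(8 + 5 * Real.log (2 * A + 1))) *
        (Real.exp 8 * Real.exp (5 * Real.log (2 * (A : ℝ) + 1))) := by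
        apply mul_le_mul_of_nonneg_left _ (Real.exp_pos _).le
        rw [h3] at h2
        exact h2.trans (mul_le_mul_of_nonneg_right h4 hE.le)
    _ = 1 := by
        rw [← Real.exp_add, ← Real.exp_add]
        simp

theorem log_lin (x c : ℝ) (hx : 0 < x) (hc : 0 < c) : Real.log x ≤ x / c + Real.log c - 1 := by
  have h1 := Real.log_le_sub_one_of_pos (div_pos hx hc)
  rw [Real.log_div hx.ne' hc.ne'] at h1
  linarith

/-- **The parameters of one phase.** -/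
theorem ph_main (K d m : ℕ) (hK : 64 ≤ K) (hd : 1 ≤ d) (hm1 : 2 ^ m * d ≤ K)
    (hm2 : K < 2 ^ (m + 1) * d) :
    ∃ (r : ℕ) (X : ℝ), 0 ≤ X ∧ PH K 4 (K / 2 ^ m) m r X ∧
      2 * r + 2 * X ≤ 124 * d + 7834 + 966 * Real.log (Real.log (K + 1)) := by
  have hKR : (64 : ℝ) ≤ K := by exact_mod_cast hK
  have hdR : (1 : ℝ) ≤ d := by exact_mod_cast hd
  have hmK : 2 ^ m ≤ K := le_trans (Nat.le_mul_of_pos_right _ (by omega)) hm1
  set L := Real.log ((K : ℝ) + 1) with hL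
  have hL4 : 4 ≤ L := by
    rw [hL, Real.le_log_iff_exp_le (by positivity)]
    have h1 := Real.exp_one_lt_d9
    have h2 := pow_le_pow_left₀ (Real.exp_pos 1).le h1.le 4
    rw [← Real.exp_nat_mul] at h2
    have h3 : ((4 : ℕ) : ℝ) * 1 = 4 := by norm_num
    rw [h3] at h2
    refine h2.trans ?_
    have h4 : (2.7182818286 : ℝ) ^ 4 ≤ 65 := by norm_num
    linarith
  have hL0 : 0 < L := by linarith
  have hL16 : 16 ≤ L ^ 2 := by nlinarith
  set W := 64 * L ^ 2 with hW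
  have hW2 : 1024 ≤ W := by
    rw [hW]
    linarith
  set nB := Nat.clog 2 ⌈W⌉₊ with hnB
  have hn1 : W ≤ 2 ^ nB := by
    have h1 : ⌈W⌉₊ ≤ 2 ^ nB := Nat.le_pow_clog (by norm_num) _
    have h2 : (⌈W⌉₊ : ℝ) ≤ 2 ^ nB := by exact_mod_cast h1
    exact (Nat.le_ceil W).trans h2
  have hceil : 2 ≤ ⌈W⌉₊ := by
    have h1 := Nat.le_ceil W
    by_contra h
    have h2 : ⌈W⌉₊ ≤ 1 := by omega
    have h3 : (⌈W⌉₊ : ℝ) ≤ 1 := by exact_mod_cast h2
    linarith
  have hn2 : (2 : ℝ) ^ nB ≤ 192 * L ^ 2 := by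
    have h1 : 2 ^ (nB - 1) < ⌈W⌉₊ := by
      have := Nat.pow_pred_clog_lt_self (b := 2) (by norm_num) (x := ⌈W⌉₊) (by omega)
      exact this
    have h2 : 1 ≤ nB := by
      rw [hnB]
      exact Nat.clog_pos (by norm_num) hceil
    have h3 : 2 ^ nB = 2 * 2 ^ (nB - 1) := by
      rw [← pow_succ']
      congr 1
      omega
    have h4 : 2 ^ nB ≤ 2 * ⌈W⌉₊ := by
      rw [h3]
      omega
    have h5 : (2 : ℝ) ^ nB ≤ 2 * ⌈W⌉₊ := by exact_mod_cast h4
    have h6 := Nat.ceil_lt_add_one (a := W) (by linarith)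
    rw [hW] at h6 hW2
    linarith
  have hn0 : (0 : ℝ) < 2 ^ nB := by positivity
  have hlogL : 0 ≤ Real.log L := Real.log_nonneg (by linarith)
  have hl2a := Real.log_two_gt_d9
  have hl2b := Real.log_two_lt_d9
  have hn3 : (nB : ℝ) ≤ 11.6 + 2.9 * Real.log L := by
    have h1 : (nB : ℝ) * Real.log 2 ≤ Real.log (192 * L ^ 2) := by
      rw [← Real.log_pow]
      exact Real.log_le_log hn0 hn2
    have h2 : Real.log (192 * L ^ 2) ≤ 8 * Real.log 2 + 2 * Real.log L := by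
      rw [Real.log_mul (by norm_num) (by positivity), Real.log_pow]
      have h3 : Real.log 192 ≤ 8 * Real.log 2 := by
        rw [show (8 : ℝ) * Real.log 2 = ((8 : ℕ) : ℝ) * Real.log 2 by norm_num, ← Real.log_pow]
        exact Real.log_le_log (by norm_num) (by norm_num)
      push_cast
      linarith
    have h3 : ((nB : ℝ) - 11.6 - 2.9 * Real.log L) * Real.log 2 ≤ 0 := by nlinarith
    by_contra h
    push Not at h
    have h4 : 0 < (nB : ℝ) - 11.6 - 2.9 * Real.log L := by linarith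
    have h5 := mul_pos h4 (by linarith : 0 < Real.log 2)
    linarith
  -- the alive tests before the levels of the second kind
  obtain ⟨A1, hA1a, hA1b, hA1c, hA1d⟩ : ∃ A1 : ℝ, (m ≤ nB → ((4 : ℕ) : ℝ) * K ≤ A1) ∧
      (nB < m → 2 * (((4 : ℕ) : ℝ) * K) / 2 ^ (m - nB) + 12 * ((4 : ℕ) : ℝ) * W ≤ A1) ∧
      A1 ≤ 6144 * d * L ^ 2 ∧ 2 * A1 / 2 ^ (min m nB) ≤ 32 * d + 96 := by
    have hK2 : (K : ℝ) ≤ 2 * 2 ^ m * d := by
      have : (K : ℝ) ≤ 2 ^ (m + 1) * d := by exact_mod_cast hm2.le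
      rw [pow_succ] at this
      linarith
    have h2m : (0 : ℝ) < 2 ^ m := by positivity
    have hdL : L ^ 2 ≤ d * L ^ 2 := by nlinarith
    rcases Nat.lt_or_ge nB m with hlt | hge
    · refine ⟨2 * (((4 : ℕ) : ℝ) * K) / 2 ^ (m - nB) + 12 * ((4 : ℕ) : ℝ) * W,
        fun h => absurd h (by omega), fun _ => le_rfl, ?_, ?_⟩
      · have h1 : 2 * (((4 : ℕ) : ℝ) * K) / 2 ^ (m - nB) ≤ 16 * d * 2 ^ nB := by
          rw [div_le_iff₀ (by positivity)]
          have h2 : (2 : ℝ) ^ m = 2 ^ nB * 2 ^ (m - nB) := by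
            rw [← pow_add]
            congr 1
            omega
          rw [h2] at hK2
          push_cast
          nlinarith
        have h2 : 16 * (d : ℝ) * 2 ^ nB ≤ 16 * d * (192 * L ^ 2) :=
          mul_le_mul_of_nonneg_left hn2 (by positivity)
        rw [hW]
        push_cast at h1 ⊢
        linarith
      · rw [Nat.min_eq_right hlt.le, div_le_iff₀ hn0]
        have h1 : 2 * (((4 : ℕ) : ℝ) * K) / 2 ^ (m - nB) ≤ 16 * d * 2 ^ nB := by
          rw [div_le_iff₀ (by positivity)]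
          have h2 : (2 : ℝ) ^ m = 2 ^ nB * 2 ^ (m - nB) := by
            rw [← pow_add]
            congr 1
            omega
          rw [h2] at hK2
          push_cast
          nlinarith
        push_cast at h1 ⊢
        nlinarith
    · refine ⟨((4 : ℕ) : ℝ) * K, fun _ => le_rfl, fun h => absurd h (by omega), ?_, ?_⟩
      · have h1 : (2 : ℝ) ^ m ≤ 2 ^ nB := pow_le_pow_right₀ (by norm_num) hge
        have h2 : (K : ℝ) ≤ 2 * (192 * L ^ 2) * d := by
          refine hK2.trans ?_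
          have h3 := h1.trans hn2
          nlinarith
        push_cast
        nlinarith
      · rw [Nat.min_eq_left hge, div_le_iff₀ h2m]
        push_cast
        nlinarith
  have hA1pos : 0 < A1 := by
    rcases Nat.lt_or_ge nB m with hlt | hge
    · refine lt_of_lt_of_le ?_ (hA1b hlt)
      have : (0 : ℝ) < W := by linarith
      positivity
    · refine lt_of_lt_of_le ?_ (hA1a hge)
      push_cast
      linarith
  set U := 131072 * (d : ℝ) * L ^ 2 with hU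
  have hdL16 : 16 ≤ (d : ℝ) * L ^ 2 := by nlinarith
  have hU1 : 2097152 ≤ U := by
    rw [hU]
    linarith
  set A := ⌈U⌉₊ with hA
  have hAU : U ≤ A := Nat.le_ceil U
  have hAU2 : (A : ℝ) < U + 1 := Nat.ceil_lt_add_one (by linarith)
  have hA1' : 1 ≤ A := by
    by_contra h
    have h0 : A = 0 := by omega
    rw [h0] at hAU
    simp only [Nat.cast_zero] at hAU
    linarith
  set ΛB := 8 + 5 * Real.log (2 * A + 1) with hΛB
  have hlogA0 : 0 ≤ Real.log (2 * (A : ℝ) + 1) := Real.log_nonneg (by linarith)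
  have hΛB0 : 0 < ΛB := by
    rw [hΛB]
    linarith
  have hl1024 : Real.log 1024 ≤ 7 := by
    rw [show (1024 : ℝ) = 2 ^ 10 by norm_num, Real.log_pow]
    push_cast
    linarith
  have hlogA : Real.log (2 * (A : ℝ) + 1) ≤ (2 * A + 1) / 1024 + 6 := by
    have := log_lin (2 * (A : ℝ) + 1) 1024 (by positivity) (by norm_num)
    linarith
  have hAcond : 2 * A1 + 12 * ((4 : ℕ) : ℝ) * ΛB ≤ A := by
    have h1 : 2 * A1 ≤ 0.09375 * U := by
      rw [hU]
      nlinarith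
    rw [hΛB]
    push_cast
    linarith
  have hlogA2 : Real.log (2 * (A : ℝ) + 1) ≤ 14.26 + d / 8 + 2 * Real.log L := by
    have h1 : Real.log (2 * (A : ℝ) + 1) ≤ Real.log (4 * U) := by
      apply Real.log_le_log (by positivity)
      linarith
    have h2 : Real.log (4 * U) = 19 * Real.log 2 + Real.log d + 2 * Real.log L := by
      rw [hU, show 4 * (131072 * (d : ℝ) * L ^ 2) = 2 ^ 19 * d * L ^ 2 by ring,
        Real.log_mul (by positivity) (by positivity), Real.log_mul (by positivity) (by positivity),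
        Real.log_pow, Real.log_pow]
      push_cast
      ring
    have h3 := log_lin d 8 (by linarith) (by norm_num)
    have h4 : Real.log 8 ≤ 2.08 := by
      rw [show (8 : ℝ) = 2 ^ 3 by norm_num, Real.log_pow]
      push_cast
      linarith
    linarith
  have hlT : ∃ lT, lT + 1 = 128 * (2 * ((K + 1) ^ (2 * (4 * m)) * K) + 1) ^ 4 := by
    have : 1 ≤ 128 * (2 * ((K + 1) ^ (2 * (4 * m)) * K) + 1) ^ 4 :=
      Nat.mul_pos (by norm_num) (Nat.pow_pos (by omega))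
    exact ⟨_, Nat.sub_add_cancel this⟩
  obtain ⟨lT, hlT⟩ := hlT
  have hlB : ∃ lB, lB + 1 = 128 * (2 * A + 1) ^ 4 := by
    have : 1 ≤ 128 * (2 * A + 1) ^ 4 := Nat.mul_pos (by norm_num) (Nat.pow_pos (by omega))
    exact ⟨_, Nat.sub_add_cancel this⟩
  obtain ⟨lB, hlB⟩ := hlB
  have h4T : 4 * Real.exp (-W) * ((K * (2 * ((4 * m) * (2 * lT + 2)) + 1) : ℕ) : ℝ) ≤ 1 := by
    have h1 := numT K m hK hmK
    have h2 : 2 * lT + 2 = 256 * (2 * ((K + 1) ^ (2 * (4 * m)) * K) + 1) ^ 4 := by omega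
    rw [h2]
    exact h1
  have h4B := numB A hA1' lB hlB
  refine ⟨1 + nB, 2 * A1 / 2 ^ (min m nB) + 12 * ((4 : ℕ) : ℝ) * ΛB, by positivity, ?_, ?_⟩
  · intro V _ Γ c o y hob hy hc hdeg hcK
    have hb1 : 1 ≤ K / 2 ^ m := by
      rw [Nat.le_div_iff_mul_le (by positivity)]
      omega
    exact phase2 (by omega) (by norm_num) hb1 hob hy hc hdeg hcK nB _ lT A lB W ΛB A1
      (by linarith) hΛB0 le_rfl hlT h4T hlB h4B hA1a hA1b hAcond
  · rw [hΛB]
    push_cast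
    linarith

end Pool.Agent.K1H87.KF
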